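import Pool.Agent.H488Z.KS.Tor

set_option autoImplicit false
set_option linter.unusedSectionVars false

namespace Pool.Agent.H488Z.KS

open Set Filter Topology Real
open scoped ContDiff

/-- A smooth periodic bump, positive exactly on `(0, w) + ℤ`. -/
noncomputable def bump (w t : ℝ) : ℝ := expNegInvGlue (sin (π * t) * sin (π * (w - t)))

lemma bump_smooth (w : ℝ) : ContDiff ℝ ∞ (bump w) :=
  expNegInvGlue.contDiff.comp (by fun_prop)

lemma bump_per (w : ℝ) : Function.Periodic (bump w) 1 := fun t => by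
  unfold bump
  rw [show π * (t + 1) = π * t + π by ring, show π * (w - (t + 1)) = π * (w - t) - π by ring,
    sin_add_pi, sin_sub_pi, neg_mul_neg]

lemma bump_pos {l w t : ℝ} (h0 : 0 ≤ l) (h1 : l + w ≤ 1) (ht : t ∈ Ioo l (l + w)) :
    0 < bump w (t - l) := by
  apply expNegInvGlue.pos_of_pos
  have := pi_pos
  exact mul_pos (sin_pos_of_pos_of_lt_pi (by nlinarith [ht.1]) (by nlinarith [ht.2]))
    (sin_pos_of_pos_of_lt_pi (by nlinarith [ht.2]) (by nlinarith [ht.1]))

lemma bump_zero {l w t : ℝ} (h0 : 0 ≤ l) (hw : 0 < w) (h1 : l + w ≤ 1) (t0 : 0 ≤ t) (t1 : t ≤ 1)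
    (ht : t ∉ Ioo l (l + w)) : bump w (t - l) = 0 := by
  apply expNegInvGlue.zero_of_nonpos
  have := pi_pos
  rw [mem_Ioo, not_and_or, not_lt, not_lt] at ht
  rcases ht with ht | ht
  · exact mul_nonpos_of_nonpos_of_nonneg
      (sin_nonpos_of_nonpos_of_neg_pi_le (by nlinarith) (by nlinarith))
      (sin_nonneg_of_nonneg_of_le_pi (by nlinarith) (by nlinarith))
  · exact mul_nonpos_of_nonneg_of_nonpos
      (sin_nonneg_of_nonneg_of_le_pi (by nlinarith) (by nlinarith))
      (sin_nonpos_of_nonpos_of_neg_pi_le (by nlinarith) (by nlinarith))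

lemma bump_bound (w : ℝ) (k : ℕ) : ∃ C, 0 ≤ C ∧ ∀ t, ‖iteratedFDeriv ℝ k (bump w) t‖ ≤ C := by
  have h1 : Function.Periodic (iteratedFDeriv ℝ k (bump w)) 1 := fun t => by
    rw [← iteratedFDeriv_comp_add_right, (bump_per w).funext]
  have h2 : Continuous (iteratedFDeriv ℝ k (bump w)) :=
    (bump_smooth w).continuous_iteratedFDeriv (by exact_mod_cast le_top)
  obtain ⟨C, hC⟩ := isBounded_iff_forall_norm_le.1 (h1.isBounded_of_continuous one_ne_zero h2)
  exact ⟨C, (norm_nonneg _).trans (hC _ ⟨0, rfl⟩), fun t => hC _ ⟨t, rfl⟩⟩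

variable {I : Type}

/-- Admissible coefficients. -/
structure Coef (w c : I → ℝ) (u : ℕ → I → ℝ) : Prop where
  summ : ∀ k, Summable (u k)
  bound : ∀ k a t, ‖iteratedFDeriv ℝ k (fun t => c a * bump (w a) t) t‖ ≤ u k a
  small : ∑' a, u 1 a < 1

lemma exists_coef [Countable I] (w : I → ℝ) (s : I → Prop) :
    ∃ (c : I → ℝ) (u : ℕ → I → ℝ), Coef w c u ∧ (∀ a, s a → 0 < c a) ∧ ∀ a, ¬ s a → c a < 0 := by
  classical
  cases nonempty_encodable I
  obtain ⟨δ, hδ, d, hd, hd'⟩ := posSumOfEncodable (show (0 : ℝ) < 1 / 2 by norm_num) I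
  choose C hC0 hC using fun a k => bump_bound (w a) k
  let S : I → ℝ := fun a => 1 + ∑ k ∈ Finset.range (Encodable.encode a + 2), C a k
  have hS : ∀ a, 0 < S a := fun a =>
    add_pos_of_pos_of_nonneg one_pos (Finset.sum_nonneg fun k _ => hC0 a k)
  let ε : I → ℝ := fun a => δ a / S a
  have hε : ∀ a, 0 < ε a := fun a => div_pos (hδ a) (hS a)
  have key : ∀ a k, k < Encodable.encode a + 2 → ε a * C a k ≤ δ a := by
    intro a k hk
    have h1 : C a k ≤ S a := by
      have := Finset.single_le_sum (f := C a) (fun k _ => hC0 a k) (Finset.mem_range.2 hk)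
      simp only [S]
      linarith
    calc ε a * C a k ≤ ε a * S a := mul_le_mul_of_nonneg_left h1 (hε a).le
      _ = δ a := div_mul_cancel₀ _ (hS a).ne'
  have summ : ∀ k, Summable fun a => ε a * C a k := by
    intro k
    apply Summable.of_norm_bounded_eventually hd.summable
    have h1 : {a : I | Encodable.encode a < k}.Finite :=
      (finite_lt_nat k).preimage Encodable.encode_injective.injOn
    filter_upwards [h1.compl_mem_cofinite] with a ha
    rw [Real.norm_of_nonneg (mul_nonneg (hε a).le (hC0 a k))]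
    exact key a k (by simp only [mem_compl_iff, mem_ofPred_eq] at ha; omega)
  refine ⟨fun a => if s a then ε a else -ε a, fun k a => ε a * C a k, ⟨summ, fun k a t => ?_, ?_⟩,
    fun a ha => by simp only [if_pos ha, hε a], fun a ha => by simp [if_neg ha, hε a]⟩
  · have h1 := iteratedFDeriv_const_smul_apply' (𝕜 := ℝ) (i := k)
      (a := if s a then ε a else -ε a) (f := bump (w a)) (x := t)
      ((bump_smooth (w a)).contDiffAt.of_le (by exact_mod_cast le_top))
    simp only [smul_eq_mul] at h1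
    rw [h1, norm_smul]
    refine mul_le_mul ?_ (hC a k t) (norm_nonneg _) (hε a).le
    split_ifs <;> simp [abs_of_pos (hε a)]
  · refine ((summ 1).tsum_le_tsum (fun a => key a 1 (by omega)) hd.summable).trans_lt ?_
    rw [hd.tsum_eq]
    linarith

/-- The displacement function. -/
noncomputable def vv (w c l : I → ℝ) (t : ℝ) : ℝ := ∑' a, c a * bump (w a) (t - l a)

variable {w c : I → ℝ} {u : ℕ → I → ℝ}

lemma term_smooth (w c l : I → ℝ) (a : I) : ContDiff ℝ ∞ fun t => c a * bump (w a) (t - l a) :=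
  contDiff_const.mul ((bump_smooth _).comp (contDiff_id.sub contDiff_const))

lemma Coef.bound' (h : Coef w c u) (l : I → ℝ) (k : ℕ) (a : I) (t : ℝ) :
    ‖iteratedFDeriv ℝ k (fun t => c a * bump (w a) (t - l a)) t‖ ≤ u k a := by
  rw [iteratedFDeriv_comp_sub (f := fun t => c a * bump (w a) t)]
  exact h.bound k a _

lemma Coef.smooth (h : Coef w c u) (l : I → ℝ) : ContDiff ℝ ∞ (vv w c l) :=
  contDiff_tsum (N := ⊤) (term_smooth w c l) (fun k _ => h.summ k) fun k a t _ => h.bound' l k a t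

lemma Coef.jets (h : Coef w c u) (k : ℕ) :
    Continuous fun p : (I → ℝ) × ℝ => iteratedFDeriv ℝ k (vv w c p.1) p.2 := by
  have h1 : (fun p : (I → ℝ) × ℝ => iteratedFDeriv ℝ k (vv w c p.1) p.2) = fun p =>
      ∑' a, iteratedFDeriv ℝ k (fun t => c a * bump (w a) t) (p.2 - p.1 a) := by
    funext p
    unfold vv
    rw [iteratedFDeriv_tsum_apply (N := ⊤) (term_smooth w c p.1) (fun k _ => h.summ k)
      (fun k a t _ => h.bound' p.1 k a t) le_top]
    congr 1
    funext a
    rw [iteratedFDeriv_comp_sub (f := fun t => c a * bump (w a) t)]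
  rw [h1]
  refine continuous_tsum (fun a => ?_) (h.summ k) fun a p => h.bound k a _
  exact ((contDiff_const.mul (bump_smooth _)).continuous_iteratedFDeriv
    (by exact_mod_cast le_top)).comp (by fun_prop)

lemma Coef.deriv_lt (h : Coef w c u) (l : I → ℝ) (t : ℝ) : |deriv (vv w c l) t| < 1 := by
  rw [← Real.norm_eq_abs, norm_deriv_eq_norm_fderiv, ← norm_iteratedFDeriv_one]
  unfold vv
  rw [iteratedFDeriv_tsum_apply (N := ⊤) (term_smooth w c l) (fun k _ => h.summ k)
    (fun k a t _ => h.bound' l k a t) le_top]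
  exact (tsum_of_norm_bounded (h.summ 1).hasSum fun a => h.bound' l 1 a t).trans_lt h.small

lemma vv_per (w c l : I → ℝ) (n : ℤ) (t : ℝ) : vv w c l (n + t) = vv w c l t := by
  unfold vv
  congr 1
  funext a
  rw [show (n : ℝ) + t - l a = t - l a + n * 1 by ring, ((bump_per (w a)).int_mul n)]

lemma Coef.hasDeriv (h : Coef w c u) (l : I → ℝ) (t : ℝ) :
    HasDerivAt (fun t => t + vv w c l t) (1 + deriv (vv w c l) t) t :=
  (hasDerivAt_id t).add (((h.smooth l).differentiable (by simp)) t).hasDerivAt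

lemma Coef.deriv_pos (h : Coef w c u) (l : I → ℝ) (t : ℝ) : 0 < 1 + deriv (vv w c l) t := by
  linarith [(abs_lt.1 (h.deriv_lt l t)).1]

/-- The lift of the circle diffeomorphism. -/
noncomputable def Coef.gg (h : Coef w c u) (l : I → ℝ) : ℝ ≃o ℝ :=
  (strictMono_of_hasDerivAt_pos (h.hasDeriv l) (h.deriv_pos l)).orderIsoOfSurjective _ (by
    intro y
    have h1 : ∀ n : ℤ, (n : ℝ) + vv w c l n = n + vv w c l 0 := fun n => by
      rw [← vv_per w c l n 0, add_zero]
    refine intermediate_value_univ ((⌊y - vv w c l 0⌋ : ℤ) : ℝ) ((⌈y - vv w c l 0⌉ : ℤ) : ℝ)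
      (continuous_id.add (h.smooth l).continuous) ⟨?_, ?_⟩
    · show _ + _ ≤ y
      rw [id, h1]
      linarith [Int.floor_le (y - vv w c l 0)]
    · show y ≤ _ + _
      rw [id, h1]
      linarith [Int.le_ceil (y - vv w c l 0)])

lemma Coef.gg_apply (h : Coef w c u) (l : I → ℝ) (t : ℝ) : h.gg l t = t + vv w c l t := rfl

lemma Coef.gg_per (h : Coef w c u) (l : I → ℝ) : Per (h.gg l) := fun n t => by
  rw [h.gg_apply, h.gg_apply, vv_per, add_assoc]

lemma Coef.gg_smooth (h : Coef w c u) (l : I → ℝ) : ContDiff ℝ ∞ (h.gg l) :=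
  contDiff_id.add (h.smooth l)

lemma Coef.gg_symm_smooth (h : Coef w c u) (l : I → ℝ) : ContDiff ℝ ∞ (h.gg l).symm :=
  (h.gg l).toHomeomorph.contDiff_symm_deriv (fun t => (h.deriv_pos l t).ne') (h.hasDeriv l)
    (h.gg_smooth l)

theorem Coef.gapSys [LinearOrder I] (h : Coef w c u) {s : I → Prop} (hs : ∀ a, s a → 0 < c a)
    (hs' : ∀ a, ¬ s a → c a < 0) (hw : ∀ a, 0 < w a) (h1 : HasSum w 1) :
    GapSys s (lft (· < ·) w) w (h.gg (lft (· < ·) w)) := by
  have l0 : ∀ a, 0 ≤ lft (· < ·) w a := fun a => mass_nonneg hw h1 _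
  have one : ∀ a, ∀ t ∈ Ioo (lft (· < ·) w a) (lft (· < ·) w a + w a),
      vv w c (lft (· < ·) w) t = c a * bump (w a) (t - lft (· < ·) w a) := by
    intro a t ht
    refine tsum_eq_single a fun b hb => ?_
    rw [bump_zero (l0 b) (hw b) (lft_r_le hw h1 b) ((l0 a).trans ht.1.le)
      (ht.2.le.trans (lft_r_le hw h1 a)) fun hb' => ?_, mul_zero]
    rcases lt_or_gt_of_ne hb with e | e
    · linarith [lft_sep hw h1 b a e, ht.1, hb'.2]
    · linarith [lft_sep hw h1 a b e, ht.2, hb'.1]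
  refine ⟨hw, l0, lft_r_le hw h1, lft_sep hw h1, lft_dense hw h1, h.gg_per _,
    fun t t0 t1 ht => ?_, fun a ha t ht => ?_, fun a ha t ht => ?_⟩
  · rw [h.gg_apply, add_eq_left]
    have : ∀ a, c a * bump (w a) (t - lft (· < ·) w a) = 0 := fun a => by
      rw [bump_zero (l0 a) (hw a) (lft_r_le hw h1 a) t0 t1 (ht a), mul_zero]
    simp only [vv, this, tsum_zero]
  · rw [h.gg_apply, one a t ht, lt_add_iff_pos_right]
    exact mul_pos (hs a ha) (bump_pos (l0 a) (lft_r_le hw h1 a) ht)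
  · rw [h.gg_apply, one a t ht, add_lt_iff_neg_left]
    exact mul_neg_of_neg_of_pos (hs' a ha) (bump_pos (l0 a) (lft_r_le hw h1 a) ht)

lemma exists_weights (I : Type) [Countable I] [Nonempty I] :
    ∃ w : I → ℝ, (∀ a, 0 < w a) ∧ HasSum w 1 := by
  cases nonempty_encodable I
  obtain ⟨δ, hδ, d, hd, -⟩ := posSumOfEncodable one_pos I
  have h0 : 0 < d := hd.tsum_eq ▸ hd.summable.tsum_pos (fun a => (hδ a).le)
    (Classical.arbitrary I) (hδ _)
  exact ⟨fun a => δ a / d, fun a => div_pos (hδ a) h0, by simpa [h0.ne'] using hd.div_const d⟩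

end Pool.Agent.H488Z.KS
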