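import Mathlib

set_option autoImplicit false

namespace Pool.Agent.H488Z.KS

open scoped Manifold

/-- The `C^r` topology on the `C^r` diffeomorphisms of a manifold `M` modelled on `E`.
It is generated by the sets `N(f; x, y, K, k, ε)`, `k ≤ r` finite, `K` compact in the domain of the
chart at `x` and `f K` in the domain of the chart at `y`, of all `g` with `g K` in the domain of the
chart at `y` whose chart representative has all derivatives of order `≤ k` within `ε` of those of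
`f` at the points of `K`. -/
@[reducible] def crTop (E : Type) [NormedAddCommGroup E] [NormedSpace ℝ E] (M : Type)
    [TopologicalSpace M] [ChartedSpace E M] (r : ℕ∞) :
    TopologicalSpace (Diffeomorph 𝓘(ℝ, E) 𝓘(ℝ, E) M M r) :=
  TopologicalSpace.generateFrom
    {S | ∃ (f : Diffeomorph 𝓘(ℝ, E) 𝓘(ℝ, E) M M r) (x y : M) (K : Set M) (k : ℕ) (ε : ℝ),
      (k : ℕ∞) ≤ r ∧ IsCompact K ∧ K ⊆ (chartAt E x).source ∧
      (fun z : M => f z) '' K ⊆ (chartAt E y).source ∧ 0 < ε ∧
      S = {g | (fun z : M => g z) '' K ⊆ (chartAt E y).source ∧ ∀ j ≤ k, ∀ z ∈ K,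
        ‖iteratedFDeriv ℝ j (fun w => extChartAt 𝓘(ℝ, E) y (g ((extChartAt 𝓘(ℝ, E) x).symm w)))
            (extChartAt 𝓘(ℝ, E) x z) -
          iteratedFDeriv ℝ j (fun w => extChartAt 𝓘(ℝ, E) y (f ((extChartAt 𝓘(ℝ, E) x).symm w)))
            (extChartAt 𝓘(ℝ, E) x z)‖ < ε}}

/-- Topological conjugacy restricted to the class `𝒦` of `C^r` diffeomorphisms is a Borel subset of
`𝒦 × 𝒦`, where `𝒦` carries the subspace topology of the `C^r` topology. -/
def ConjBorelOn (E : Type) [NormedAddCommGroup E] [NormedSpace ℝ E] (M : Type)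
    [TopologicalSpace M] [ChartedSpace E M] (r : ℕ∞)
    (𝒦 : Set (Diffeomorph 𝓘(ℝ, E) 𝓘(ℝ, E) M M r)) : Prop :=
  letI := crTop E M r
  @MeasurableSet (𝒦 × 𝒦) (borel (𝒦 × 𝒦))
    {p | ∃ h : M ≃ₜ M, ∀ z : M, h (p.1.1 z) = p.2.1 (h z)}

end Pool.Agent.H488Z.KS
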