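import Mathlib

set_option autoImplicit false
set_option linter.unusedSectionVars false

namespace Pool.Agent.H488Z.KS

open Set Filter Topology

/-- Parametrisation of a gap by the line, turning the map into a unit translation. -/
lemma exists_param (g : ℝ ≃o ℝ) {l r : ℝ} (hlr : l < r) (hl : g l = l) (hr : g r = r)
    (h : ∀ t ∈ Ioo l r, t < g t) :
    ∃ ψ : ℝ → ℝ, StrictMono ψ ∧ range ψ = Ioo l r ∧ ∀ t, ψ (t + 1) = g (ψ t) := by
  have fix : ∀ (x : ℝ), g x = x → ∀ n : ℤ, (g ^ n) x = x := fun x hx n =>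
    MulAction.mem_fixedBy_zpow (show x ∈ MulAction.fixedBy ℝ g from hx) n
  have pres : ∀ (n : ℤ), ∀ t ∈ Ioo l r, (g ^ n) t ∈ Ioo l r := by
    intro n t ht
    constructor
    · rw [← fix l hl n]
      exact (g ^ n).strictMono ht.1
    · rw [← fix r hr n]
      exact (g ^ n).strictMono ht.2
  have succ : ∀ (n : ℤ) (t : ℝ), (g ^ (n + 1)) t = g ((g ^ n) t) := by
    intro n t
    rw [add_comm, zpow_one_add]
    rfl
  have succ' : ∀ (n : ℤ) (t : ℝ), (g ^ (n + 1)) t = (g ^ n) (g t) := by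
    intro n t
    rw [zpow_add_one]
    rfl
  set x₀ := (l + r) / 2 with hx₀
  have h0 : x₀ ∈ Ioo l r := ⟨by linarith, by linarith⟩
  have h1 : x₀ < g x₀ := h _ h0
  let u : ℤ → ℝ := fun n => (g ^ n) x₀
  have hu : StrictMono u := strictMono_int_of_lt_succ fun n => by
    show (g ^ n) x₀ < (g ^ (n + 1)) x₀
    rw [succ']
    exact (g ^ n).strictMono h1
  let ψ : ℝ → ℝ := fun t => (g ^ ⌊t⌋) (x₀ + Int.fract t * (g x₀ - x₀))
  have b1 : ∀ t, u ⌊t⌋ ≤ ψ t := fun t =>
    (g ^ ⌊t⌋).monotone (by nlinarith [Int.fract_nonneg t])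
  have b2 : ∀ t, ψ t < u (⌊t⌋ + 1) := fun t => by
    show _ < (g ^ (⌊t⌋ + 1)) x₀
    rw [succ']
    exact (g ^ ⌊t⌋).strictMono (by nlinarith [Int.fract_lt_one t])
  have im : g '' range u = range u := by
    ext y
    constructor
    · rintro ⟨_, ⟨n, rfl⟩, rfl⟩
      exact ⟨n + 1, succ n x₀⟩
    · rintro ⟨n, rfl⟩
      refine ⟨_, ⟨n - 1, rfl⟩, ?_⟩
      show g ((g ^ (n - 1)) x₀) = (g ^ n) x₀
      rw [← succ, sub_add_cancel]
  refine ⟨ψ, fun t t' htt => ?_, ?_, fun t => ?_⟩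
  · rcases (Int.floor_mono htt.le).eq_or_lt with e | e
    · show (g ^ ⌊t⌋) _ < (g ^ ⌊t'⌋) _
      rw [← e]
      apply (g ^ ⌊t⌋).strictMono
      have : Int.fract t < Int.fract t' := by
        unfold Int.fract
        rw [e]
        linarith
      nlinarith
    · exact (b2 t).trans_le ((hu.monotone e).trans (b1 t'))
  · ext y
    constructor
    · rintro ⟨t, rfl⟩
      exact ⟨(pres _ _ h0).1.trans_le (b1 t), (b2 t).trans (pres _ _ h0).2⟩
    · intro hy
      have up : ∃ n, y < u n := by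
        by_contra h'
        have hb : y ∈ upperBounds (range u) := by
          rintro _ ⟨n, rfl⟩
          exact not_lt.1 fun h2 => h' ⟨n, h2⟩
        have h2 := isLUB_csSup (range_nonempty u) ⟨y, hb⟩
        have h3 : IsLUB (g '' range u) (g (sSup (range u))) := g.isLUB_image'.2 h2
        rw [im] at h3
        have h4 : sSup (range u) ∈ Ioo l r :=
          ⟨(pres 0 _ h0).1.trans_le (h2.1 ⟨0, rfl⟩), (h2.2 hb).trans_lt hy.2⟩
        exact (h _ h4).ne (h2.unique h3)
      have dn : ∃ n, u n ≤ y := by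
        by_contra h'
        have hb : y ∈ lowerBounds (range u) := by
          rintro _ ⟨n, rfl⟩
          exact (not_le.1 fun h2 => h' ⟨n, h2⟩).le
        have h2 := isGLB_csInf (range_nonempty u) ⟨y, hb⟩
        have h3 : IsGLB (g '' range u) (g (sInf (range u))) := g.isGLB_image'.2 h2
        rw [im] at h3
        have h4 : sInf (range u) ∈ Ioo l r :=
          ⟨hy.1.trans_le (h2.2 hb), (h2.1 ⟨0, rfl⟩).trans_lt (pres 0 _ h0).2⟩
        exact (h _ h4).ne (h2.unique h3)
      obtain ⟨m, hm⟩ := up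
      obtain ⟨n, hn, hn'⟩ := Int.exists_greatest_of_bdd (P := fun n => u n ≤ y)
        ⟨m, fun z hz => (hu.lt_iff_lt.1 (hz.trans_lt hm)).le⟩ dn
      have hn2 : y < u (n + 1) := not_le.1 fun h2 => by linarith [hn' _ h2]
      set y' := (g ^ n).symm y with hy'
      have e : (g ^ n) y' = y := (g ^ n).apply_symm_apply y
      have c1 : x₀ ≤ y' := (g ^ n).le_iff_le.1 (by rw [e]; exact hn)
      have c2 : y' < g x₀ := (g ^ n).lt_iff_lt.1 (by rw [e, ← succ']; exact hn2)
      have d : 0 < g x₀ - x₀ := by linarith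
      set s := (y' - x₀) / (g x₀ - x₀) with hs
      have s0 : 0 ≤ s := div_nonneg (by linarith) d.le
      have s1 : s < 1 := (div_lt_one d).2 (by linarith)
      have fl : ⌊(n : ℝ) + s⌋ = n := by
        rw [Int.floor_intCast_add, Int.floor_eq_zero_iff.2 ⟨s0, s1⟩, add_zero]
      have fr : Int.fract ((n : ℝ) + s) = s := by
        rw [Int.fract_intCast_add, Int.fract_eq_self.2 ⟨s0, s1⟩]
      refine ⟨n + s, ?_⟩
      show (g ^ ⌊(n : ℝ) + s⌋) (x₀ + Int.fract ((n : ℝ) + s) * (g x₀ - x₀)) = y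
      rw [fl, fr, hs, div_mul_cancel₀ _ d.ne', add_sub_cancel, e]
  · show (g ^ ⌊t + 1⌋) (x₀ + Int.fract (t + 1) * (g x₀ - x₀)) = _
    rw [Int.floor_add_one, Int.fract_add_one, succ]

/-- Extension of an order isomorphism between dense subsets of the line. -/
lemma ext_iso {J : Type} [LinearOrder J] {P P' : J → ℝ} (hP : StrictMono P) (hP' : StrictMono P')
    (d : DenseRange P) (d' : DenseRange P') : ∃ Φ : ℝ ≃o ℝ, ∀ j, Φ (P j) = P' j := by
  let S : ℝ → Set ℝ := fun x => P' '' {j | P j < x}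
  have bt : ∀ x y : ℝ, x < y → ∃ j, x < P j ∧ P j < y := fun x y h => by
    obtain ⟨j, hj⟩ := d.exists_mem_open isOpen_Ioo (nonempty_Ioo.2 h)
    exact ⟨j, hj⟩
  have bt' : ∀ x y : ℝ, x < y → ∃ j, x < P' j ∧ P' j < y := fun x y h => by
    obtain ⟨j, hj⟩ := d'.exists_mem_open isOpen_Ioo (nonempty_Ioo.2 h)
    exact ⟨j, hj⟩
  have ne : ∀ x, (S x).Nonempty := fun x => by
    obtain ⟨j, -, hj⟩ := bt (x - 1) x (by linarith)
    exact ⟨_, j, hj, rfl⟩
  have ub : ∀ x k, x ≤ P k → P' k ∈ upperBounds (S x) := by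
    rintro x k hk _ ⟨j, hj, rfl⟩
    exact (hP' (hP.lt_iff_lt.1 (lt_of_lt_of_le hj hk))).le
  have bd : ∀ x, BddAbove (S x) := fun x => by
    obtain ⟨j, hj, -⟩ := bt x (x + 1) (by linarith)
    exact ⟨_, ub x j hj.le⟩
  let Φ : ℝ → ℝ := fun x => sSup (S x)
  have val : ∀ k, Φ (P k) = P' k := fun k => by
    apply le_antisymm (csSup_le (ne _) (ub _ k le_rfl))
    apply le_of_forall_lt
    intro y hy
    obtain ⟨j, h1, h2⟩ := bt' y _ hy
    exact h1.trans_le (le_csSup (bd _) ⟨j, hP (hP'.lt_iff_lt.1 h2), rfl⟩)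
  have sm : StrictMono Φ := fun x y hxy => by
    obtain ⟨k, h1, h2⟩ := bt x y hxy
    obtain ⟨k', h3, h4⟩ := bt _ y h2
    calc Φ x ≤ P' k := csSup_le (ne _) (ub _ k h1.le)
      _ < P' k' := hP' (hP.lt_iff_lt.1 h3)
      _ ≤ Φ y := le_csSup (bd _) ⟨k', h4, rfl⟩
  have dr : DenseRange Φ := by
    refine Dense.mono ?_ d'
    rintro _ ⟨k, rfl⟩
    exact ⟨_, val k⟩
  have ct : Continuous Φ := sm.monotone.continuous_of_denseRange dr
  have sj : Function.Surjective Φ := fun y => by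
    obtain ⟨j, -, h1⟩ := bt' (y - 1) y (by linarith)
    obtain ⟨k, h2, -⟩ := bt' y (y + 1) (by linarith)
    exact intermediate_value_univ (P j) (P k) ct ⟨by rw [val]; exact h1.le, by rw [val]; exact h2.le⟩
  exact ⟨sm.orderIsoOfSurjective Φ sj, val⟩

/-- A lift of a circle homeomorphism whose moving gaps in `[0,1]` are indexed by `I`. -/
structure GapSys {I : Type} [LinearOrder I] (s : I → Prop) (l w : I → ℝ) (g : ℝ ≃o ℝ) : Prop where
  w_pos : ∀ a, 0 < w a
  l_nonneg : ∀ a, 0 ≤ l a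
  r_le : ∀ a, l a + w a ≤ 1
  sep : ∀ a b, a < b → l a + w a ≤ l b
  dense : ∀ x y, 0 ≤ x → x < y → y ≤ 1 → ∃ a, l a < y ∧ x < l a + w a
  per : ∀ (n : ℤ) t, g (n + t) = n + g t
  fix : ∀ t, 0 ≤ t → t ≤ 1 → (∀ a, t ∉ Ioo (l a) (l a + w a)) → g t = t
  pos : ∀ a, s a → ∀ t ∈ Ioo (l a) (l a + w a), t < g t
  neg : ∀ a, ¬ s a → ∀ t ∈ Ioo (l a) (l a + w a), g t < t

variable {I I' : Type} [LinearOrder I] [LinearOrder I'] {s : I → Prop} {l w : I → ℝ} {g : ℝ ≃o ℝ}
  {s' : I' → Prop} {l' w' : I' → ℝ} {g' : ℝ ≃o ℝ}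

lemma GapSys.fix_l (h : GapSys s l w g) (a : I) : g (l a) = l a := by
  refine h.fix _ (h.l_nonneg a) (by linarith [h.r_le a, h.w_pos a]) fun b hb => ?_
  rcases lt_trichotomy a b with e | e | e
  · linarith [h.sep a b e, hb.1, h.w_pos a]
  · exact absurd hb.1 (by rw [e]; exact lt_irrefl _)
  · linarith [h.sep b a e, hb.2]

lemma GapSys.fix_r (h : GapSys s l w g) (a : I) : g (l a + w a) = l a + w a := by
  refine h.fix _ (by linarith [h.l_nonneg a, h.w_pos a]) (h.r_le a) fun b hb => ?_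
  rcases lt_trichotomy a b with e | e | e
  · linarith [h.sep a b e, hb.1]
  · exact absurd hb.2 (by rw [e]; exact lt_irrefl _)
  · linarith [h.sep b a e, hb.2, h.w_pos a]

lemma GapSys.fix_zero (h : GapSys s l w g) : g 0 = 0 :=
  h.fix 0 le_rfl zero_le_one fun a ha => by linarith [h.l_nonneg a, ha.1]

lemma GapSys.fix_one (h : GapSys s l w g) : g 1 = 1 :=
  h.fix 1 zero_le_one le_rfl fun a ha => by linarith [h.r_le a, ha.2]

open Classical in
lemma GapSys.coords (h : GapSys s l w g) : ∃ P : ℤ ×ₗ I ×ₗ ℝ → ℝ, StrictMono P ∧ DenseRange P ∧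
    (∀ (m n : ℤ) a t, P (toLex (m + n, toLex (a, t))) = m + P (toLex (n, toLex (a, t)))) ∧
    ∀ n a t, g (P (toLex (n, toLex (a, t)))) =
      P (toLex (n, toLex (a, if s a then t + 1 else t - 1))) := by
  have key : ∀ a, ∃ ψ : ℝ → ℝ, StrictMono ψ ∧ range ψ = Ioo (l a) (l a + w a) ∧
      ∀ t, g (ψ t) = ψ (if s a then t + 1 else t - 1) := by
    intro a
    have hl : l a < l a + w a := by linarith [h.w_pos a]
    by_cases hs : s a
    · obtain ⟨ψ, h1, h2, h3⟩ := exists_param g hl (h.fix_l a) (h.fix_r a) (h.pos a hs)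
      exact ⟨ψ, h1, h2, fun t => by rw [if_pos hs, h3]⟩
    · obtain ⟨ψ, h1, h2, h3⟩ := exists_param g.symm hl (g.symm_apply_eq.2 (h.fix_l a).symm)
        (g.symm_apply_eq.2 (h.fix_r a).symm) (fun t ht => g.lt_symm_apply.2 (h.neg a hs t ht))
      refine ⟨ψ, h1, h2, fun t => ?_⟩
      rw [if_neg hs, ← sub_add_cancel t 1, h3, g.apply_symm_apply, sub_add_cancel]
  choose ψ h1 h2 h3 using key
  have mem : ∀ a t, ψ a t ∈ Ioo (l a) (l a + w a) := fun a t => h2 a ▸ mem_range_self t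
  refine ⟨fun j => (ofLex j).1 + ψ (ofLex (ofLex j).2).1 (ofLex (ofLex j).2).2, ?_, ?_, ?_, ?_⟩
  · intro j k hjk
    obtain ⟨⟨n, j⟩, rfl⟩ := toLex.surjective j
    obtain ⟨⟨a, t⟩, rfl⟩ := toLex.surjective j
    obtain ⟨⟨n', k⟩, rfl⟩ := toLex.surjective k
    obtain ⟨⟨a', t'⟩, rfl⟩ := toLex.surjective k
    simp only [Prod.Lex.toLex_lt_toLex] at hjk
    simp only [ofLex_toLex]
    rcases hjk with e | ⟨rfl, e | ⟨rfl, e⟩⟩
    · have : (n : ℝ) + 1 ≤ n' := by exact_mod_cast e
      linarith [(mem a t).2, (mem a' t').1, h.r_le a, h.l_nonneg a']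
    · linarith [(mem a t).2, (mem a' t').1, h.sep a a' e]
    · linarith [h1 a e]
  · apply dense_of_exists_between
    intro x y hxy
    have f0 := Int.fract_nonneg x
    have f1 := Int.fract_lt_one x
    have f2 := Int.floor_add_fract x
    obtain ⟨a, ha1, ha2⟩ := h.dense (Int.fract x) (min (y - ⌊x⌋) 1) f0
      (lt_min (by linarith) f1) (min_le_right _ _)
    obtain ⟨z, hz1, hz2⟩ := exists_between (show max (Int.fract x) (l a) <
      min (min (y - ⌊x⌋) 1) (l a + w a) from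
        max_lt (lt_min (lt_min (by linarith) f1) ha2) (lt_min ha1 (by linarith [h.w_pos a])))
    rw [max_lt_iff] at hz1
    rw [lt_min_iff, lt_min_iff] at hz2
    obtain ⟨t, ht⟩ : z ∈ range (ψ a) := h2 a ▸ ⟨hz1.2, hz2.2⟩
    refine ⟨_, ⟨toLex (⌊x⌋, toLex (a, t)), rfl⟩, ?_, ?_⟩
    · simp only [ofLex_toLex, ht]
      linarith [hz1.1]
    · simp only [ofLex_toLex, ht]
      linarith [hz2.1.1]
  · intro m n a t
    simp only [ofLex_toLex]
    push_cast
    ring
  · intro n a t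
    simp only [ofLex_toLex]
    rw [h.per, h3]

/-- Isomorphic gap structures are conjugate. -/
theorem GapSys.conj (h : GapSys s l w g) (h' : GapSys s' l' w' g') (σ : I ≃o I')
    (hσ : ∀ a, s' (σ a) ↔ s a) :
    ∃ Φ : ℝ ≃o ℝ, (∀ (n : ℤ) t, Φ (n + t) = n + Φ t) ∧ ∀ t, Φ (g t) = g' (Φ t) := by
  obtain ⟨P, p1, p2, p3, p4⟩ := h.coords
  obtain ⟨P', q1, q2, q3, q4⟩ := h'.coords
  let e : ℤ ×ₗ I ×ₗ ℝ ≃o ℤ ×ₗ I' ×ₗ ℝ :=
    Prod.Lex.prodLexCongr (OrderIso.refl ℤ) (Prod.Lex.prodLexCongr σ (OrderIso.refl ℝ))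
  have he : ∀ n a t, e (toLex (n, toLex (a, t))) = toLex (n, toLex (σ a, t)) := fun _ _ _ => rfl
  have q5 : DenseRange (P' ∘ e) := by
    rw [DenseRange, e.surjective.range_comp]
    exact q2
  obtain ⟨Φ, hΦ⟩ := ext_iso p1 (q1.comp e.strictMono) p2 q5
  refine ⟨Φ, fun n t => ?_, fun t => ?_⟩
  · refine congrFun (p2.equalizer (g := fun t => Φ (n + t)) (h := fun t => n + Φ t)
      (Φ.continuous.comp (by fun_prop)) (continuous_const.add Φ.continuous) ?_) t
    funext j
    obtain ⟨⟨m, j⟩, rfl⟩ := toLex.surjective j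
    obtain ⟨⟨a, t⟩, rfl⟩ := toLex.surjective j
    simp only [Function.comp_apply]
    rw [← p3, hΦ, hΦ, Function.comp_apply, Function.comp_apply, he, he, q3]
  · refine congrFun (p2.equalizer (g := fun t => Φ (g t)) (h := fun t => g' (Φ t))
      (Φ.continuous.comp g.continuous) (g'.continuous.comp Φ.continuous) ?_) t
    funext j
    obtain ⟨⟨m, j⟩, rfl⟩ := toLex.surjective j
    obtain ⟨⟨a, t⟩, rfl⟩ := toLex.surjective j
    simp only [Function.comp_apply]
    rw [p4, hΦ, hΦ, Function.comp_apply, Function.comp_apply, he, he, q4]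
    rw [show s' (σ a) = s a from propext (hσ a)]

/-- Total weight of a set of indices. -/
noncomputable def mass (w : I → ℝ) (S : Set I) : ℝ := ∑' b, S.indicator w b

/-- Left end points of the gaps determined by weights and an order. -/
noncomputable def lft (r : I → I → Prop) (w : I → ℝ) (a : I) : ℝ := mass w {b | r b a}

section weights

variable (hw : ∀ a, 0 < w a) (h1 : HasSum w 1)
include hw h1

lemma mass_nonneg (S : Set I) : 0 ≤ mass w S :=
  tsum_nonneg fun b => indicator_nonneg (fun b _ => (hw b).le) b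

lemma mass_mono {S T : Set I} (h : S ⊆ T) : mass w S ≤ mass w T :=
  Summable.tsum_le_tsum (fun b => indicator_le_indicator_of_subset h (fun b => (hw b).le) b)
    (h1.summable.indicator _) (h1.summable.indicator _)

lemma mass_union {S T : Set I} (h : Disjoint S T) : mass w (S ∪ T) = mass w S + mass w T := by
  rw [mass, mass, mass, ← Summable.tsum_add (h1.summable.indicator _) (h1.summable.indicator _),
    indicator_union_of_disjoint h]

lemma mass_univ : mass w univ = 1 := by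
  rw [mass, indicator_univ, h1.tsum_eq]

lemma mass_coe (F : Finset I) : mass w F = ∑ b ∈ F, w b := by
  rw [mass, tsum_eq_sum (s := F) (fun b hb => indicator_of_notMem (by simpa using hb) _)]
  exact Finset.sum_congr rfl fun b hb => indicator_of_mem (by simpa using hb) _

lemma lft_add (a : I) : lft (· < ·) w a + w a = mass w (Iic a) := by
  have h2 : w a = mass w {a} := by
    have := mass_coe hw h1 {a}
    simpa using this.symm
  rw [h2, ← Iio_union_right, mass_union hw h1 (by simp)]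
  rfl

lemma lft_r_le (a : I) : lft (· < ·) w a + w a ≤ 1 := by
  rw [lft_add hw h1, ← mass_univ hw h1]
  exact mass_mono hw h1 (subset_univ _)

lemma lft_sep (a b : I) (hab : a < b) : lft (· < ·) w a + w a ≤ lft (· < ·) w b := by
  rw [lft_add hw h1]
  exact mass_mono hw h1 fun c hc => lt_of_le_of_lt hc hab

lemma lft_dense (x y : ℝ) (hx : 0 ≤ x) (hxy : x < y) (hy : y ≤ 1) :
    ∃ a, lft (· < ·) w a < y ∧ x < lft (· < ·) w a + w a := by
  classical
  let D : Set I := {a | lft (· < ·) w a + w a ≤ x}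
  have hD : mass w D ≤ x := by
    apply (h1.summable.indicator D).tsum_le_of_sum_le
    intro F
    have h3 : ∑ b ∈ F, D.indicator w b = mass w (F.filter (· ∈ D)) := by
      rw [mass_coe hw h1, Finset.sum_filter]
      exact Finset.sum_congr rfl fun b _ => indicator_apply _ _ _
    rw [h3]
    rcases (F.filter (· ∈ D)).eq_empty_or_nonempty with e | e
    · rw [mass_coe hw h1, e]
      simpa using hx
    · have h2 : lft (· < ·) w _ + w _ ≤ x := (Finset.mem_filter.1 (Finset.max'_mem _ e)).2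
      refine le_trans ?_ h2
      rw [lft_add hw h1]
      exact mass_mono hw h1 fun b hb => Finset.le_max' _ b hb
  obtain ⟨F, hF⟩ := (Filter.Tendsto.eventually h1
    (lt_mem_nhds (show 1 - (y - x) < 1 by linarith))).exists
  by_contra hc
  have hc' : ∀ a, a ∉ D → y ≤ lft (· < ·) w a := fun a ha =>
    not_lt.1 fun h2 => hc ⟨a, h2, not_le.1 ha⟩
  have tail : mass w (F : Set I)ᶜ < y - x := by
    have h3 := mass_union hw h1 (disjoint_compl_right (a := (F : Set I)))
    rw [union_compl_self, mass_univ hw h1, mass_coe hw h1] at h3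
    linarith
  have key : ∀ S : Set I, (∀ b ∈ S, b ∈ F → b ∈ D) → mass w S < y := by
    intro S hS
    have h2 : mass w S ≤ mass w (D ∪ ((F : Set I)ᶜ \ D)) := mass_mono hw h1 fun b hb => by
      by_cases h3 : b ∈ D
      · exact Or.inl h3
      · exact Or.inr ⟨fun h4 => h3 (hS b hb h4), h3⟩
    rw [mass_union hw h1 disjoint_sdiff_right] at h2
    have h3 : mass w ((F : Set I)ᶜ \ D) ≤ mass w (F : Set I)ᶜ := mass_mono hw h1 diff_subset
    linarith
  rcases (F.filter (· ∉ D)).eq_empty_or_nonempty with e | e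
  · have h2 := key univ fun b _ hb => by
      by_contra h3
      have : b ∈ F.filter (· ∉ D) := Finset.mem_filter.2 ⟨hb, h3⟩
      simp [e] at this
    rw [mass_univ hw h1] at h2
    linarith
  · have h2 := Finset.mem_filter.1 (Finset.min'_mem _ e)
    have h3 := key {b | b < (F.filter (· ∉ D)).min' e} fun b hb hb' => by
      by_contra h3
      exact absurd (Finset.min'_le _ b (Finset.mem_filter.2 ⟨hb', h3⟩)) (not_le.2 hb)
    exact absurd (hc' _ h2.2) (not_le.2 h3)

end weights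

end Pool.Agent.H488Z.KS
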