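import Mathlib

set_option autoImplicit false

namespace Pool.Agent.H488Z.KS

open Set

/-- Countable dense orders with a least and no greatest element are isomorphic. -/
lemma iso_dense_bot (α β : Type) [LinearOrder α] [LinearOrder β] [Countable α] [Countable β]
    [DenselyOrdered α] [DenselyOrdered β] [OrderBot α] [OrderBot β] [NoMaxOrder α]
    [NoMaxOrder β] : Nonempty (α ≃o β) := by
  classical
  have key : ∀ (γ : Type) [LinearOrder γ] [DenselyOrdered γ] [OrderBot γ] [NoMaxOrder γ],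
      DenselyOrdered {a : γ // a ≠ ⊥} ∧ NoMinOrder {a : γ // a ≠ ⊥} ∧
        NoMaxOrder {a : γ // a ≠ ⊥} ∧ Nonempty {a : γ // a ≠ ⊥} := by
    intro γ _ _ _ _
    refine ⟨⟨fun a b h => ?_⟩, ⟨fun a => ?_⟩, ⟨fun a => ?_⟩, ?_⟩
    · obtain ⟨c, h1, h2⟩ := exists_between (show a.1 < b.1 from h)
      exact ⟨⟨c, ne_bot_of_gt h1⟩, h1, h2⟩
    · obtain ⟨c, h1, h2⟩ := exists_between (bot_lt_iff_ne_bot.2 a.2)
      exact ⟨⟨c, ne_bot_of_gt h1⟩, h2⟩
    · obtain ⟨c, h1⟩ := exists_gt a.1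
      exact ⟨⟨c, ne_bot_of_gt h1⟩, h1⟩
    · obtain ⟨c, h1⟩ := exists_gt (⊥ : γ)
      exact ⟨⟨c, ne_bot_of_gt h1⟩⟩
  obtain ⟨_, _, _, _⟩ := key α
  obtain ⟨_, _, _, _⟩ := key β
  obtain ⟨e⟩ := Order.iso_of_countable_dense {a : α // a ≠ ⊥} {a : β // a ≠ ⊥}
  exact ⟨(WithBot.subtypeOrderIso.symm.trans e.withBotCongr).trans WithBot.subtypeOrderIso⟩

/-- The exponential `ω ^ L`. -/
abbrev Pw (L : Type) : Type := Colex (L →₀ ℕ)

variable {L : Type} [LinearOrder L]

lemma lt_add_single (a : Pw L) (r : L) : a < toColex (ofColex a + Finsupp.single r 1) := by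
  rw [Finsupp.Colex.lt_iff]
  refine ⟨r, fun j hj => ?_, ?_⟩
  · simp [hj.ne]
  · simp

instance [Nonempty L] : NoMaxOrder (Pw L) :=
  ⟨fun a => ⟨_, lt_add_single a (Classical.arbitrary L)⟩⟩

/-- If `L` is ill-founded then `ω ^ L` absorbs doubling. -/
theorem pw_iso [Countable L] (h : ¬ WellFounded ((· < ·) : L → L → Prop)) :
    Nonempty (Pw L ≃o Pw L ⊕ₗ Pw L) := by
  classical
  let R : L → Prop := fun r => ¬ Acc (· < ·) r
  have hR0 : ∃ r, R r := by
    by_contra h'
    exact h ⟨fun a => not_not.1 fun ha => h' ⟨a, ha⟩⟩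
  have hR1 : ∀ r, R r → ∃ r', R r' ∧ r' < r := by
    intro r hr
    by_contra h'
    exact hr ⟨r, fun y hy => not_not.1 fun hy' => h' ⟨y, hy', hy⟩⟩
  have hR2 : ∀ r j, R r → r < j → R j := fun r j hr hj hj' => hr (hj'.inv hj)
  let Q := {a : Pw L // ∀ i, ¬ R i → ofColex a i = 0}
  let P := {a : Pw L // ∀ i, R i → ofColex a i = 0}
  have : Countable (Pw L) := inferInstanceAs (Countable (L →₀ ℕ))
  let _ : OrderBot Q := { bot := ⟨⊥, fun _ _ => rfl⟩, bot_le := fun a => show (⊥ : Pw L) ≤ a.1 from bot_le }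
  have add : ∀ (q : Q) (r : L), R r →
      ∀ i, ¬ R i → (ofColex q.1 + Finsupp.single r 1 : L →₀ ℕ) i = 0 := by
    intro q r hr i hi
    have : r ≠ i := fun e => hi (e ▸ hr)
    simp [q.2 i hi, Finsupp.single_apply, this]
  have : NoMaxOrder Q := ⟨fun q => by
    obtain ⟨r, hr⟩ := hR0
    exact ⟨⟨toColex _, add q r hr⟩, lt_add_single q.1 r⟩⟩
  have : DenselyOrdered Q := ⟨fun q q' hq => by
    obtain ⟨i, h1, h2⟩ := Finsupp.Colex.lt_iff.1 (show q.1 < q'.1 from hq)
    have hi : R i := by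
      refine Classical.by_contradiction fun hi => ?_
      have := q'.2 i hi
      have h3 : ofColex q.1 i < ofColex q'.1 i := h2
      omega
    obtain ⟨r, hr, hri⟩ := hR1 i hi
    refine ⟨⟨toColex _, add q r hr⟩, lt_add_single q.1 r, ?_⟩
    refine Finsupp.Colex.lt_iff.2 ⟨i, fun j hj => ?_, ?_⟩
    · have h3 : ofColex q.1 j = ofColex q'.1 j := h1 j hj
      simp [Finsupp.single_apply, (hri.trans hj).ne, h3]
    · have h3 : ofColex q.1 i < ofColex q'.1 i := h2
      simpa [Finsupp.single_apply, hri.ne] using h3⟩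
  have : Countable (Q ⊕ₗ Q) := inferInstanceAs (Countable (Q ⊕ Q))
  obtain ⟨τ⟩ := iso_dense_bot Q (Q ⊕ₗ Q)
  let φ : Pw L → Q ×ₗ P := fun a => toLex
    (⟨toColex ((ofColex a).filter R), fun i hi => by simp [hi]⟩,
     ⟨toColex ((ofColex a).filter fun i => ¬ R i), fun i hi => by simp [hi]⟩)
  have hφ : StrictMono φ := by
    intro a b hab
    obtain ⟨i, h1, h2⟩ := Finsupp.Colex.lt_iff.1 hab
    have h3 : ∀ j, i < j → ofColex a j = ofColex b j := h1
    have h4 : ofColex a i < ofColex b i := h2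
    rw [Prod.Lex.lt_iff]
    by_cases hi : R i
    · left
      refine Finsupp.Colex.lt_iff.2 ⟨i, fun j hj => ?_, ?_⟩
      · simp [φ, Finsupp.filter_apply, h3 j hj]
      · simpa [φ, Finsupp.filter_apply, hi] using h4
    · right
      constructor
      · apply Subtype.ext
        show toColex _ = toColex _
        congr 1
        ext j
        by_cases hj : R j
        · have : i < j := by
            rcases lt_trichotomy i j with h5 | h5 | h5
            · exact h5
            · exact absurd (h5 ▸ hj) hi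
            · exact absurd (hR2 j i hj h5) hi
          simp [Finsupp.filter_apply, h3 j this]
        · simp [hj]
      · refine Finsupp.Colex.lt_iff.2 ⟨i, fun j hj => ?_, ?_⟩
        · simp [φ, Finsupp.filter_apply, h3 j hj]
        · simpa [φ, Finsupp.filter_apply, hi] using h4
  have hs : Function.Surjective φ := by
    intro z
    refine ⟨toColex (ofColex (ofLex z).1.1 + ofColex (ofLex z).2.1), ?_⟩
    apply ofLex.injective
    apply Prod.ext
    · apply Subtype.ext
      apply ofColex.injective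
      ext j
      by_cases hj : R j
      · simp [φ, hj, (ofLex z).2.2 j hj]
      · simp [φ, hj, (ofLex z).1.2 j hj]
    · apply Subtype.ext
      apply ofColex.injective
      ext j
      by_cases hj : R j
      · simp [φ, hj, (ofLex z).2.2 j hj]
      · simp [φ, hj, (ofLex z).1.2 j hj]
  let e := hφ.orderIsoOfSurjective φ hs
  exact ⟨((e.trans (Prod.Lex.prodLexCongr τ (OrderIso.refl P))).trans
    (Prod.Lex.sumLexProdLexDistrib Q Q P)).trans (e.symm.sumLexCongr e.symm)⟩

/-- A well-order does not absorb doubling. -/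
theorem no_strictMono {A : Type} [LinearOrder A] [WellFoundedLT A] [NoMaxOrder A] [Nonempty A]
    (σ : A ⊕ₗ A → WithTop A) : ¬ StrictMono σ := by
  intro hσ
  obtain ⟨a₀⟩ := ‹Nonempty A›
  obtain ⟨a₁, h01⟩ := exists_gt a₀
  have h1 : ∀ a, σ (toLex (Sum.inl a)) < σ (toLex (Sum.inr a₀)) := fun a =>
    hσ (Sum.Lex.inl_lt_inr a a₀)
  have h2 : σ (toLex (Sum.inr a₀)) < σ (toLex (Sum.inr a₁)) := hσ (Sum.Lex.inr_lt_inr_iff.2 h01)
  have h3 : ∀ a, ∃ b : A, σ (toLex (Sum.inl a)) = b := fun a =>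
    (WithTop.ne_top_iff_exists.1 (h1 a).ne_top).imp fun _ h => h.symm
  choose τ hτ using h3
  have h4 : StrictMono τ := fun a b hab => by
    have := hσ (Sum.Lex.inl_lt_inl_iff.2 hab)
    rwa [hτ, hτ, WithTop.coe_lt_coe] at this
  obtain ⟨b, hb⟩ := WithTop.ne_top_iff_exists.1 h2.ne_top
  have h5 := h1 b
  rw [hτ, ← hb, WithTop.coe_lt_coe] at h5
  exact absurd (h4.le_apply (x := b)) (not_le.2 h5)

end Pool.Agent.H488Z.KS
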