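import Pool.Agent.H488Z.KS.Man
import Pool.Agent.H488Z.KS.Ord
import Pool.Agent.H102Z.Bi.Tree
import Pool.Agent.Helper222.CPE.NonBorel

set_option autoImplicit false
set_option linter.unusedSectionVars false

namespace Pool.Agent.H488Z.KS

open Set Filter Topology MeasureTheory
open scoped ContDiff Manifold

lemma side (I : Type) [Countable I] [Nonempty I] (s : I → Prop) :
    ∃ (w c : I → ℝ) (u : ℕ → I → ℝ) (h : Coef w c u), ∀ o : LinearOrder I,
      @GapSys I o s (lft o.lt w) w (h.gg (lft o.lt w)) := by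
  obtain ⟨w, hw, h1⟩ := exists_weights I
  obtain ⟨c, u, h, h2, h3⟩ := exists_coef w s
  exact ⟨w, c, u, h, fun o => h.gapSys h2 h3 hw h1⟩

lemma measurable_lft {X I : Type} [MeasurableSpace X] [Countable I] (r : X → I → I → Prop)
    (hr : ∀ a b, MeasurableSet {x | r x a b}) (w : I → ℝ) : Measurable fun x => lft (r x) w := by
  refine measurable_pi_lambda _ fun a => Measurable.tsum fun b => ?_
  exact (measurable_const (a := w b)).indicator (hr b a)

/-- Finite sequences with a given order. -/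
def Syn (_ : LinearOrder (List ℕ)) : Type := List ℕ

instance (o : LinearOrder (List ℕ)) : LinearOrder (Syn o) := o

instance (o : LinearOrder (List ℕ)) : Nonempty (Syn o) := ⟨([] : List ℕ)⟩

instance (o : LinearOrder (List ℕ)) : Countable (Syn o) := inferInstanceAs (Countable (List ℕ))

/-- The order `ω ^ L + 1`. -/
@[reducible] noncomputable def ord₁ (o : LinearOrder (List ℕ)) :
    LinearOrder (Option (List ℕ →₀ ℕ)) := inferInstanceAs (LinearOrder (WithTop (Pw (Syn o))))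

/-- The order `ω ^ L + ω ^ L + 1`. -/
@[reducible] noncomputable def ord₂ (o : LinearOrder (List ℕ)) :
    LinearOrder (Option ((List ℕ →₀ ℕ) ⊕ (List ℕ →₀ ℕ))) :=
  inferInstanceAs (LinearOrder (WithTop (Pw (Syn o) ⊕ₗ Pw (Syn o))))

section meas

variable {X : Type} [MeasurableSpace X] {o : X → LinearOrder (List ℕ)}
  (ho : ∀ s t, MeasurableSet {x | (o x).lt s t})
include ho

lemma meas_pw (a b : List ℕ →₀ ℕ) : MeasurableSet {x | @LT.lt (Pw (Syn (o x))) _ a b} := by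
  have : {x | @LT.lt (Pw (Syn (o x))) _ a b} =
      ⋃ i, (⋂ j, ({x | (o x).lt i j}ᶜ ∪ {_x | a j = b j})) ∩ {_x | a i < b i} := by
    ext x
    simp only [mem_iUnion, mem_inter_iff, mem_iInter, mem_union, mem_compl_iff, mem_ofPred_eq,
      ← imp_iff_not_or]
    rfl
  rw [this]
  exact MeasurableSet.iUnion fun i => (MeasurableSet.iInter fun j =>
    (ho i j).compl.union (MeasurableSet.const _)).inter (MeasurableSet.const _)

lemma meas₁ (a b : Option (List ℕ →₀ ℕ)) : MeasurableSet {x | (ord₁ (o x)).lt a b} := by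
  rcases a with _ | a
  · convert MeasurableSet.empty (α := X)
    exact eq_empty_of_forall_notMem fun x hx =>
      not_top_lt (α := WithTop (Pw (Syn (o x)))) hx
  · rcases b with _ | b
    · convert MeasurableSet.univ (α := X)
      exact eq_univ_of_forall fun x => WithTop.coe_lt_top (α := Pw (Syn (o x))) a
    · convert meas_pw ho a b using 1
      ext x
      exact WithTop.coe_lt_coe (α := Pw (Syn (o x)))

lemma meas₂ (a b : Option ((List ℕ →₀ ℕ) ⊕ (List ℕ →₀ ℕ))) :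
    MeasurableSet {x | (ord₂ (o x)).lt a b} := by
  rcases a with _ | a
  · convert MeasurableSet.empty (α := X)
    exact eq_empty_of_forall_notMem fun x hx =>
      not_top_lt (α := WithTop (Pw (Syn (o x)) ⊕ₗ Pw (Syn (o x)))) hx
  · rcases b with _ | b
    · convert MeasurableSet.univ (α := X)
      exact eq_univ_of_forall fun x =>
        WithTop.coe_lt_top (α := Pw (Syn (o x)) ⊕ₗ Pw (Syn (o x))) a
    · have e : {x | (ord₂ (o x)).lt (some a) (some b)} =
          {x | @LT.lt (Pw (Syn (o x)) ⊕ₗ Pw (Syn (o x))) _ a b} := by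
        ext x
        exact WithTop.coe_lt_coe (α := Pw (Syn (o x)) ⊕ₗ Pw (Syn (o x)))
      rw [e]
      rcases a with a | a <;> rcases b with b | b
      · convert meas_pw ho a b using 1
        ext x
        exact Sum.Lex.inl_lt_inl_iff (α := Pw (Syn (o x))) (β := Pw (Syn (o x)))
      · convert MeasurableSet.univ (α := X)
        exact eq_univ_of_forall fun x =>
          Sum.Lex.inl_lt_inr (α := Pw (Syn (o x))) (β := Pw (Syn (o x))) a b
      · convert MeasurableSet.empty (α := X)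
        exact eq_empty_of_forall_notMem fun x hx =>
          Sum.Lex.not_inr_lt_inl (α := Pw (Syn (o x))) (β := Pw (Syn (o x))) hx
      · convert meas_pw ho a b using 1
        ext x
        exact Sum.Lex.inr_lt_inr_iff (α := Pw (Syn (o x))) (β := Pw (Syn (o x)))

end meas

lemma code_iff {A : Type} [LinearOrder A] {l w : WithTop A → ℝ} {g : ℝ ≃o ℝ}
    {l' w' : WithTop (A ⊕ₗ A) → ℝ} {g' : ℝ ≃o ℝ} [OrderBot A] [NoMaxOrder A]
    (h : GapSys (· = ⊤) l w g) (h' : GapSys (· = ⊤) l' w' g') {α : ℝ} (hα : Irrational α)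
    (hA : ¬ WellFoundedLT A → Nonempty (A ≃o A ⊕ₗ A)) :
    (∃ H : T1 × T1 ≃ₜ T1 × T1, ∀ z, H (sk g' α z) = sk g α (H z)) ↔ ¬ WellFoundedLT A := by
  constructor
  · rintro ⟨H, hH⟩ hw
    obtain ⟨σ, hσ⟩ := nonconj h' h hα H hH
    exact no_strictMono σ hσ
  · intro hw
    obtain ⟨e⟩ := hA hw
    exact h'.conj_torus h e.symm.withTopCongr (fun a => map_eq_top_iff _) α

theorem main (r : ℕ∞) (𝒦 : Set (Diffeomorph 𝓘(ℝ, ℝ × ℝ) 𝓘(ℝ, ℝ × ℝ) (T1 × T1) (T1 × T1) r))
    (h𝒦 : ∀ f : Diffeomorph 𝓘(ℝ, ℝ × ℝ) 𝓘(ℝ, ℝ × ℝ) (T1 × T1) (T1 × T1) r,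
      Function.periodicPts f = ∅ → f ∈ 𝒦) : ¬ ConjBorelOn (ℝ × ℝ) (T1 × T1) r 𝒦 := by
  intro hB
  obtain ⟨T, hT, hT'⟩ := Pool.Agent.Helper222.CPE.NB.exists_analytic_not_measurable
  obtain ⟨K, hK1, hK2, hK3⟩ := Pool.Agent.H102Z.Bi.exists_order T hT
  let o : (ℕ → ℕ) → LinearOrder (List ℕ) := fun x => LinearOrder.lift' (K x) (hK2 x)
  obtain ⟨w₁, c₁, u₁, h₁, g₁⟩ := side (Option (List ℕ →₀ ℕ)) (· = none)
  obtain ⟨w₂, c₂, u₂, h₂, g₂⟩ := side (Option ((List ℕ →₀ ℕ) ⊕ (List ℕ →₀ ℕ))) (· = none)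
  have hα : Irrational √2 := irrational_sqrt_two
  let _ := crTop (ℝ × ℝ) (T1 × T1) r
  let Θ : (Option ((List ℕ →₀ ℕ) ⊕ (List ℕ →₀ ℕ)) → ℝ) × (Option (List ℕ →₀ ℕ) → ℝ) → 𝒦 × 𝒦 :=
    fun p => (⟨h₂.diffeo √2 r p.1, h𝒦 _ (sk_aper _ hα)⟩, ⟨h₁.diffeo √2 r p.2, h𝒦 _ (sk_aper _ hα)⟩)
  have hΘ : Continuous Θ :=
    (((h₂.continuous_diffeo √2 r).comp continuous_fst).subtype_mk _).prodMk
      (((h₁.continuous_diffeo √2 r).comp continuous_snd).subtype_mk _)
  have h1 := hΘ.borel_measurable hB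
  rw [← BorelSpace.measurable_eq] at h1
  have h2 := ((measurable_lft (fun x => (ord₂ (o x)).lt) (meas₂ hK1) w₂).prodMk
    (measurable_lft (fun x => (ord₁ (o x)).lt) (meas₁ hK1) w₁)) h1
  apply hT'
  convert h2 using 1
  ext x
  have h3 := code_iff (A := Pw (Syn (o x))) (g₁ (ord₁ (o x))) (g₂ (ord₂ (o x))) hα
    (fun hw => pw_iso fun hw' => hw (by
      have : WellFoundedLT (Syn (o x)) := ⟨hw'⟩
      infer_instance))
  refine Iff.trans ?_ h3.symm
  rw [hK3]
  refine not_congr ⟨fun hw => ?_, fun hw => ?_⟩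
  · have : WellFoundedLT (Syn (o x)) := ⟨hw⟩
    infer_instance
  · exact (Finsupp.Colex.single_strictMono (α := Syn (o x))).wellFoundedLT.wf

end Pool.Agent.H488Z.KS
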