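import Pool.Agent.H488Z.KS.Ana
import Pool.Agent.H488Z.KS.Defs
import Pool.Agent.H488Z.Gen.Jet

set_option autoImplicit false
set_option linter.unusedSectionVars false

namespace Pool.Agent.H488Z.KS

open Set Filter Topology Pool.Agent.H488Z.Gen
open scoped ContDiff Manifold

/-- The covering map of the torus. -/
def pr (z : ℝ × ℝ) : T1 × T1 := (z.1, z.2)

/-- The covering map restricted to a square. -/
noncomputable def box (a : ℝ × ℝ) : OpenPartialHomeomorph (ℝ × ℝ) (T1 × T1) :=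
  (AddCircle.openPartialHomeomorphCoe (1 : ℝ) (a.1 - 1 / 2)).prod
    (AddCircle.openPartialHomeomorphCoe (1 : ℝ) (a.2 - 1 / 2))

lemma box_apply (a x : ℝ × ℝ) : box a x = pr x := rfl

lemma mem_box (a : ℝ × ℝ) : a ∈ (box a).source :=
  ⟨⟨by linarith, by linarith⟩, ⟨by linarith, by linarith⟩⟩

noncomputable instance : ChartedSpace (ℝ × ℝ) (T1 × T1) where
  atlas := {e | ∃ a, e = (box a).symm}
  chartAt p := (box (rp p.1, rp p.2)).symm
  mem_chart_source p := by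
    have := (box _).map_source (mem_box (rp p.1, rp p.2))
    rwa [box_apply, pr, coe_rp, coe_rp] at this
  chart_mem_atlas p := ⟨_, rfl⟩

lemma ch_symm_eq (p : T1 × T1) : ((ch (ℝ × ℝ) p).symm : ℝ × ℝ → T1 × T1) = pr := rfl

lemma box_pr (a x : ℝ × ℝ) (hx : pr x ∈ (box a).target) :
    ∃ n : ℝ × ℝ, ∀ᶠ y in 𝓝 x, (box a).symm (pr y) = y + n := by
  set z := (box a).symm (pr x) with hz
  have hzs : z ∈ (box a).source := (box a).map_target hx
  have hzx : pr z = pr x := (box a).right_inv hx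
  refine ⟨z - x, ?_⟩
  have hev : ∀ᶠ y in 𝓝 x, y + (z - x) ∈ (box a).source :=
    (continuous_add_const (z - x)).continuousAt.preimage_mem_nhds
      ((box a).open_source.mem_nhds (by rwa [add_sub_cancel]))
  filter_upwards [hev] with y hy
  have hyt : pr y = pr (y + (z - x)) := by
    have h1 : ((z.1 : ℝ) : T1) = x.1 := congrArg Prod.fst hzx
    have h2 : ((z.2 : ℝ) : T1) = x.2 := congrArg Prod.snd hzx
    simp [pr, h1, h2]
  rw [hyt]
  exact (box a).left_inv hy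

instance : IsManifold 𝓘(ℝ, ℝ × ℝ) ∞ (T1 × T1) := by
  apply isManifold_of_contDiffOn
  rintro e e' ⟨a, rfl⟩ ⟨b, rfl⟩ x hx
  obtain ⟨n, hn⟩ := box_pr b x hx.1.2
  exact ((contDiffAt_id.add contDiffAt_const).congr_of_eventuallyEq hn).contDiffWithinAt

lemma contMDiff_pr : ContMDiff 𝓘(ℝ, ℝ × ℝ) 𝓘(ℝ, ℝ × ℝ) ∞ pr := fun x =>
  (contMDiffOn_symm_of_mem_maximalAtlas (IsManifold.subset_maximalAtlas
    (show (box x).symm ∈ atlas (ℝ × ℝ) (T1 × T1) from ⟨x, rfl⟩))).contMDiffAt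
    ((box x).open_source.mem_nhds (mem_box x))

lemma pr_ch {x z : T1 × T1} (hz : z ∈ (chartAt (ℝ × ℝ) x).source) : pr (ch (ℝ × ℝ) x z) = z :=
  ch_symm hz

lemma contMDiff_of_lift {f : T1 × T1 → T1 × T1} {G : ℝ × ℝ → ℝ × ℝ} (hG : ContDiff ℝ ∞ G)
    (h : ∀ z, f (pr z) = pr (G z)) : ContMDiff 𝓘(ℝ, ℝ × ℝ) 𝓘(ℝ, ℝ × ℝ) ∞ f := by
  intro p
  refine ((contMDiff_pr.comp hG.contMDiff).contMDiffAt.comp p
    (contMDiffAt_extChartAt (x := p))).congr_of_eventuallyEq ?_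
  filter_upwards [chart_source_mem_nhds (ℝ × ℝ) p] with q hq
  rw [← pr_ch hq, h, pr_ch hq]
  rfl

lemma sk_pr {g : ℝ → ℝ} (h : Per g) (α : ℝ) (z : ℝ × ℝ) : sk g α (pr z) = pr (g z.1, z.2 + α) :=
  Prod.ext (dn_coe h _) rfl

variable {I : Type} {w c : I → ℝ} {u : ℕ → I → ℝ}

/-- The coding diffeomorphisms. -/
noncomputable def Coef.diffeo (h : Coef w c u) (α : ℝ) (r : ℕ∞) (l : I → ℝ) :
    Diffeomorph 𝓘(ℝ, ℝ × ℝ) 𝓘(ℝ, ℝ × ℝ) (T1 × T1) (T1 × T1) r where
  toFun := sk (h.gg l) α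
  invFun := sk (h.gg l).symm (-α)
  left_inv z := Prod.ext ((circ _ (h.gg_per l)).left_inv z.1) (by simp [sk])
  right_inv z := Prod.ext ((circ _ (h.gg_per l)).right_inv z.1) (by simp [sk])
  contMDiff_toFun := (contMDiff_of_lift (G := fun z => (h.gg l z.1, z.2 + α))
    (((h.gg_smooth l).comp contDiff_fst).prodMk (contDiff_snd.add contDiff_const))
    (sk_pr (h.gg_per l) α)).of_le (by exact_mod_cast le_top)
  contMDiff_invFun := (contMDiff_of_lift (G := fun z => ((h.gg l).symm z.1, z.2 + -α))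
    (((h.gg_symm_smooth l).comp contDiff_fst).prodMk (contDiff_snd.add contDiff_const))
    (sk_pr (h.gg_per l).symm (-α))).of_le (by exact_mod_cast le_top)

lemma Coef.diffeo_apply (h : Coef w c u) (α : ℝ) (r : ℕ∞) (l : I → ℝ) (z : T1 × T1) :
    h.diffeo α r l z = sk (h.gg l) α z := rfl

lemma sk_aper (g : ℝ → ℝ) {α : ℝ} (hα : Irrational α) : Function.periodicPts (sk g α) = ∅ := by
  rw [eq_empty_iff_forall_notMem]
  rintro z ⟨n, hn, hz⟩
  have h1 : ∀ m : ℕ, ((sk g α)^[m] z).2 = z.2 + ((m * α : ℝ) : T1) := by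
    intro m
    induction m with
    | zero => simp
    | succ m ih =>
      rw [Function.iterate_succ_apply', sk, ih]
      push_cast
      rw [add_mul, one_mul, AddCircle.coe_add, add_assoc]
  have h2 := h1 n
  rw [hz.eq, left_eq_add, AddCircle.coe_eq_zero_iff] at h2
  obtain ⟨m, hm⟩ := h2
  exact (hα.natCast_mul hn.ne').ne_int m (by simpa using hm.symm)

/-- The lifted map. -/
noncomputable def Coef.GG (h : Coef w c u) (α : ℝ) (l : I → ℝ) (z : ℝ × ℝ) : ℝ × ℝ :=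
  (h.gg l z.1, z.2 + α)

lemma Coef.GG_smooth (h : Coef w c u) (α : ℝ) (l : I → ℝ) : ContDiff ℝ ∞ (h.GG α l) :=
  ((h.gg_smooth l).comp contDiff_fst).prodMk (contDiff_snd.add contDiff_const)

lemma Coef.GG_jets (h : Coef w c u) (α : ℝ) (j : ℕ) :
    Continuous fun p : (I → ℝ) × (ℝ × ℝ) => iteratedFDeriv ℝ j (h.GG α p.1) p.2 := by
  have hj : ((j : ℕ) : WithTop ℕ∞) ≤ ∞ := by exact_mod_cast le_top
  have sA : ContDiff ℝ ∞ fun z : ℝ × ℝ => z + (0, α) := contDiff_id.add contDiff_const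
  have e : (fun p : (I → ℝ) × (ℝ × ℝ) => iteratedFDeriv ℝ j (h.GG α p.1) p.2) = fun p =>
      iteratedFDeriv ℝ j (fun z : ℝ × ℝ => z + (0, α)) p.2 +
        (ContinuousLinearMap.inl ℝ ℝ ℝ).compContinuousMultilinearMap
          ((iteratedFDeriv ℝ j (vv w c p.1) p.2.1).compContinuousLinearMap
            fun _ => ContinuousLinearMap.fst ℝ ℝ ℝ) := by
    funext p
    have s1 : ContDiff ℝ ∞ (vv w c p.1 ∘ ContinuousLinearMap.fst ℝ ℝ ℝ) :=
      (h.smooth p.1).comp (ContinuousLinearMap.contDiff _)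
    have e1 : h.GG α p.1 = (fun z : ℝ × ℝ => z + (0, α)) +
        (ContinuousLinearMap.inl ℝ ℝ ℝ) ∘ (vv w c p.1 ∘ ContinuousLinearMap.fst ℝ ℝ ℝ) := by
      funext z
      simp [Coef.GG, h.gg_apply, Prod.ext_iff]
    rw [e1, iteratedFDeriv_add_apply (sA.contDiffAt.of_le hj)
      (((ContinuousLinearMap.contDiff _).comp s1).contDiffAt.of_le hj),
      ContinuousLinearMap.iteratedFDeriv_comp_left _ s1.contDiffAt hj,
      ContinuousLinearMap.iteratedFDeriv_comp_right _ (h.smooth p.1) _ hj]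
    rfl
  rw [e]
  refine ((sA.continuous_iteratedFDeriv hj).comp continuous_snd).add ?_
  have c1 : Continuous fun p : (I → ℝ) × (ℝ × ℝ) => iteratedFDeriv ℝ j (vv w c p.1) p.2.1 := by
    have h1 := (h.jets j).comp (continuous_fst.prodMk (continuous_fst.comp continuous_snd) :
      Continuous fun p : (I → ℝ) × (ℝ × ℝ) => (p.1, p.2.1))
    simpa only [Function.comp_def] using h1
  have c2 : Continuous fun m : ℝ [×j]→L[ℝ] ℝ =>
      m.compContinuousLinearMap fun _ => ContinuousLinearMap.fst ℝ ℝ ℝ :=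
    (ContinuousMultilinearMap.compContinuousLinearMapL
      fun _ : Fin j => ContinuousLinearMap.fst ℝ ℝ ℝ).continuous
  have c3 : Continuous fun m : (ℝ × ℝ) [×j]→L[ℝ] ℝ =>
      (ContinuousLinearMap.inl ℝ ℝ ℝ).compContinuousMultilinearMap m :=
    (ContinuousLinearMap.compContinuousMultilinearMapL ℝ (fun _ : Fin j => ℝ × ℝ) ℝ (ℝ × ℝ)
      (ContinuousLinearMap.inl ℝ ℝ ℝ)).continuous
  have c4 := c3.comp (c2.comp c1)
  simpa only [Function.comp_def] using c4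

lemma Coef.GG_cont (h : Coef w c u) (α : ℝ) :
    Continuous fun p : (I → ℝ) × (ℝ × ℝ) => h.GG α p.1 p.2 :=
  (continuousMultilinearCurryFin0 ℝ (ℝ × ℝ) (ℝ × ℝ)).continuous.comp (h.GG_jets α 0)

theorem Coef.continuous_diffeo (h : Coef w c u) (α : ℝ) (r : ℕ∞) :
    Continuous[_, crTop (ℝ × ℝ) (T1 × T1) r] (h.diffeo α r) := by
  rw [continuous_generateFrom_iff]
  rintro _ ⟨f, x, y, K, k, ε, hk, hK, hKx, hf, -, rfl⟩
  rw [isOpen_iff_mem_nhds]
  intro l₀ hl₀
  have key : ∀ᶠ l in 𝓝 l₀, ∀ z ∈ K, h.diffeo α r l z ∈ (chartAt (ℝ × ℝ) y).source ∧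
      ∀ j ∈ Finset.range (k + 1), ‖jet j x (ch (ℝ × ℝ) y) (h.diffeo α r l) z -
        jet j x (ch (ℝ × ℝ) y) f z‖ < ε := by
    apply hK.eventually_forall_of_forall_eventually
    intro z hz
    have hx := hKx hz
    have hy : h.diffeo α r l₀ z ∈ (chartAt (ℝ × ℝ) y).source := hl₀.1 ⟨z, hz, rfl⟩
    have hy' : f z ∈ (chartAt (ℝ × ℝ) y).source := hf ⟨z, hz, rfl⟩
    have ev : ∀ l q, q ∈ (chartAt (ℝ × ℝ) x).source →
        pr (h.GG α l (ch (ℝ × ℝ) x q)) = h.diffeo α r l q := fun l q hq => by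
      rw [h.diffeo_apply, ← pr_ch hq, sk_pr (h.gg_per l), pr_ch hq]
      rfl
    have t0 : Tendsto (fun p : (I → ℝ) × (T1 × T1) => (p.1, ch (ℝ × ℝ) x p.2)) (𝓝 (l₀, z))
        (𝓝 (l₀, ch (ℝ × ℝ) x z)) :=
      continuousAt_fst.prodMk ((contAt_ch hx).comp_of_eq continuousAt_snd rfl)
    have t1 := ((h.GG_cont α).tendsto _).comp t0
    have t2 : Tendsto (fun p : (I → ℝ) × (T1 × T1) => h.diffeo α r p.1 p.2) (𝓝 (l₀, z))
        (𝓝 (h.diffeo α r l₀ z)) := by
      have h1 := (contMDiff_pr.continuous.tendsto _).comp t1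
      rw [ev l₀ z hx] at h1
      refine h1.congr' ?_
      filter_upwards [continuousAt_snd.eventually ((chartAt (ℝ × ℝ) x).open_source.mem_nhds hx)]
        with p hp
      exact ev _ _ hp
    refine Eventually.and (t2.eventually ((chartAt (ℝ × ℝ) y).open_source.mem_nhds hy)) ?_
    rw [Finset.eventually_all]
    intro j hj
    have hjk := Nat.lt_succ_iff.1 (Finset.mem_range.1 hj)
    have hj' : ((j : ℕ) : WithTop ℕ∞) ≤ ∞ := by exact_mod_cast le_top
    have sv : ContDiffAt ℝ ∞ (ch (ℝ × ℝ) y ∘ pr) (h.GG α l₀ (ch (ℝ × ℝ) x z)) := by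
      rw [← contMDiffAt_iff_contDiffAt]
      refine ContMDiffAt.comp _ ?_ (contMDiff_pr _)
      rw [ev l₀ z hx]
      exact contMDiffAt_extChartAt' hy
    have t3 := tendsto_iteratedFDeriv_comp (l := 𝓝 (l₀, z)) (k := j)
      (v := fun _ : (I → ℝ) × (T1 × T1) => ch (ℝ × ℝ) y ∘ pr) (u := fun p => h.GG α p.1)
      (w := fun p => ch (ℝ × ℝ) x p.2) (v₀ := ch (ℝ × ℝ) y ∘ pr) (u₀ := h.GG α l₀)
      (w₀ := ch (ℝ × ℝ) x z) (t1.eventually ((sv.of_le hj').eventually (by simp)))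
      (Eventually.of_forall fun p => (h.GG_smooth α _).contDiffAt.of_le hj') (sv.of_le hj')
      ((h.GG_smooth α _).contDiffAt.of_le hj')
      (fun i _ => (sv.continuousAt_iteratedFDeriv (by exact_mod_cast le_top)).tendsto.comp t1)
      (fun i _ => by
        have h1 := ((h.GG_jets α i).tendsto _).comp t0
        simpa only [Function.comp_def] using h1)
    have e : ∀ l, (ch (ℝ × ℝ) y ∘ pr) ∘ h.GG α l = rep x (ch (ℝ × ℝ) y) (h.diffeo α r l) := by
      intro l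
      funext v
      simp only [Function.comp_apply, rep, ch_symm_eq, h.diffeo_apply, sk_pr (h.gg_per l)]
      rfl
    simp only [e] at t3
    have sf : ContDiffAt ℝ r (rep x (ch (ℝ × ℝ) y) f) (ch (ℝ × ℝ) x z) := by
      have hr : ((r : ℕ∞) : WithTop ℕ∞) ≤ ∞ := by exact_mod_cast le_top
      rw [← contMDiffAt_iff_contDiffAt]
      have h1 : ContMDiffAt 𝓘(ℝ, ℝ × ℝ) 𝓘(ℝ, ℝ × ℝ) r (ch (ℝ × ℝ) y ∘ f)
          (pr (ch (ℝ × ℝ) x z)) := by
        rw [pr_ch hx]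
        exact ((contMDiffAt_extChartAt' (n := ∞) hy').of_le hr).comp z (f.contMDiff z)
      exact h1.comp _ ((contMDiff_pr _).of_le hr)
    have t4 : Tendsto (fun p : (I → ℝ) × (T1 × T1) => jet j x (ch (ℝ × ℝ) y) f p.2) (𝓝 (l₀, z))
        (𝓝 (jet j x (ch (ℝ × ℝ) y) f z)) :=
      (((sf.continuousAt_iteratedFDeriv (by
        exact_mod_cast le_trans (Nat.cast_le.2 hjk) hk)).comp (contAt_ch hx)).comp_of_eq
        continuousAt_snd rfl)
    exact (t3.sub t4).norm.eventually_lt tendsto_const_nhds (hl₀.2 j hjk z hz)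
  filter_upwards [key] with l hl
  refine ⟨?_, fun j hj z hz => (hl z hz).2 j (Finset.mem_range.2 (Nat.lt_succ_of_le hj))⟩
  rintro _ ⟨z, hz, rfl⟩
  exact (hl z hz).1

end Pool.Agent.H488Z.KS
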