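import Pool.Agent.H488Z.KS.Gap

set_option autoImplicit false
set_option linter.unusedSectionVars false

namespace Pool.Agent.H488Z.KS

open Set Filter Topology

/-- The circle. -/
abbrev T1 : Type := AddCircle (1 : ℝ)

/-- Commuting with integer translations. -/
def Per (Φ : ℝ → ℝ) : Prop := ∀ (n : ℤ) t, Φ (n + t) = n + Φ t

/-- Representative in `[0,1)`. -/
noncomputable def rp (x : T1) : ℝ := AddCircle.equivIco 1 0 x

lemma coe_rp (x : T1) : (rp x : T1) = x := AddCircle.coe_equivIco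

lemma rp_nonneg (x : T1) : 0 ≤ rp x := (AddCircle.equivIco 1 0 x).2.1

lemma rp_lt_one (x : T1) : rp x < 1 := (AddCircle.equivIco 1 0 x).2.2.trans_eq (zero_add 1)

lemma rp_coe' (t : ℝ) : rp (t : T1) = Int.fract t := by
  have := AddCircle.coe_equivIco_mk_apply (1 : ℝ) t
  rwa [div_one, mul_one] at this

lemma rp_coe {t : ℝ} (h0 : 0 ≤ t) (h1 : t < 1) : rp (t : T1) = t := by
  rw [rp_coe', Int.fract_eq_self.2 ⟨h0, h1⟩]

lemma coe_inj {t u : ℝ} (h0 : 0 ≤ t) (h1 : t < 1) (h2 : 0 ≤ u) (h3 : u < 1)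
    (h : (t : T1) = u) : t = u := by
  rw [← rp_coe h0 h1, h, rp_coe h2 h3]

lemma contAt_rp {x : T1} (hx : x ≠ 0) : ContinuousAt rp x :=
  continuousAt_subtype_val.comp (AddCircle.continuousAt_equivIco 1 0 hx)

lemma coe_int_add (n : ℤ) (t : ℝ) : ((n + t : ℝ) : T1) = t := by
  rw [AddCircle.coe_add, (AddCircle.coe_eq_zero_iff 1).2 ⟨n, by simp⟩, zero_add]

lemma continuous_coe : Continuous ((↑) : ℝ → T1) := AddCircle.continuous_mk' 1

/-- The map induced on the circle. -/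
noncomputable def dn (Φ : ℝ → ℝ) (x : T1) : T1 := (Φ (rp x) : ℝ)

lemma dn_coe {Φ : ℝ → ℝ} (h : Per Φ) (t : ℝ) : dn Φ t = (Φ t : ℝ) := by
  rw [dn, rp_coe', ← coe_int_add ⌊t⌋, ← h, Int.floor_add_fract]

lemma continuous_dn {Φ : ℝ → ℝ} (h : Per Φ) (hc : Continuous Φ) : Continuous (dn Φ) := by
  rw [(QuotientAddGroup.isQuotientMap_mk _).continuous_iff]
  have : dn Φ ∘ QuotientAddGroup.mk = fun t => ((Φ t : ℝ) : T1) := funext (dn_coe h)
  rw [this]
  exact continuous_coe.comp hc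

lemma Per.symm {Φ : ℝ ≃o ℝ} (h : Per Φ) : Per Φ.symm := fun n t => by
  rw [Φ.symm_apply_eq, h, Φ.apply_symm_apply]

/-- The homeomorphism induced on the circle. -/
noncomputable def circ (Φ : ℝ ≃o ℝ) (h : Per Φ) : T1 ≃ₜ T1 where
  toFun := dn Φ
  invFun := dn Φ.symm
  left_inv x := by rw [← coe_rp x, dn_coe h, dn_coe h.symm, Φ.symm_apply_apply]
  right_inv x := by rw [← coe_rp x, dn_coe h.symm, dn_coe h, Φ.apply_symm_apply]
  continuous_toFun := continuous_dn h Φ.continuous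
  continuous_invFun := continuous_dn h.symm Φ.symm.continuous

/-- The product of a circle map with a rotation. -/
noncomputable def sk (g : ℝ → ℝ) (α : ℝ) (z : T1 × T1) : T1 × T1 := (dn g z.1, z.2 + α)

section conj

variable {I I' : Type} [LinearOrder I] [LinearOrder I'] {s : I → Prop} {l w : I → ℝ} {g : ℝ ≃o ℝ}
  {s' : I' → Prop} {l' w' : I' → ℝ} {g' : ℝ ≃o ℝ}

theorem GapSys.conj_torus (h : GapSys s l w g) (h' : GapSys s' l' w' g') (σ : I ≃o I')
    (hσ : ∀ a, s' (σ a) ↔ s a) (α : ℝ) :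
    ∃ H : T1 × T1 ≃ₜ T1 × T1, ∀ z, H (sk g α z) = sk g' α (H z) := by
  obtain ⟨Φ, h1, h2⟩ := h.conj h' σ hσ
  refine ⟨(circ Φ h1).prodCongr (Homeomorph.refl _), fun z => Prod.ext ?_ rfl⟩
  show dn Φ (dn g z.1) = dn g' (dn Φ z.1)
  rw [← coe_rp z.1, dn_coe h.per, dn_coe h1, dn_coe h1, dn_coe h'.per, h2]

end conj

lemma conv (g : ℝ ≃o ℝ) (hp : Per g) (h0 : g 0 = 0) (t : ℝ) : ∃ y, g y = y ∧
    Tendsto (fun n => g^[n] t) atTop (𝓝 y) ∧ (g t ≤ t → y ≤ t) ∧ (t ≤ g t → t ≤ y) ∧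
    (∀ k, g k = k → k ≤ t → k ≤ y) ∧ (∀ k, g k = k → t ≤ k → y ≤ k) := by
  have a1 : ∀ k, g k = k → k ≤ t → ∀ n, k ≤ g^[n] t := fun k hk h n => by
    rw [← Function.iterate_fixed hk n]
    exact g.monotone.iterate n h
  have a2 : ∀ k, g k = k → t ≤ k → ∀ n, g^[n] t ≤ k := fun k hk h n => by
    rw [← Function.iterate_fixed hk n]
    exact g.monotone.iterate n h
  have fx : ∀ n : ℤ, g n = n := fun n => by simpa [h0] using hp n 0
  have ex : ∃ y, Tendsto (fun n => g^[n] t) atTop (𝓝 y) := by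
    rcases le_total t (g t) with h | h
    · refine ⟨_, tendsto_atTop_ciSup (g.monotone.monotone_iterate_of_le_map h) ⟨(⌈t⌉ : ℝ), ?_⟩⟩
      rintro _ ⟨n, rfl⟩
      exact a2 _ (fx _) (Int.le_ceil t) n
    · refine ⟨_, tendsto_atTop_ciInf (g.monotone.antitone_iterate_of_map_le h) ⟨(⌊t⌋ : ℝ), ?_⟩⟩
      rintro _ ⟨n, rfl⟩
      exact a1 _ (fx _) (Int.floor_le t) n
  obtain ⟨y, hy⟩ := ex
  refine ⟨y, isFixedPt_of_tendsto_iterate hy g.continuous.continuousAt, hy, fun h => ?_,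
    fun h => ?_, fun k hk h => ge_of_tendsto' hy (a1 k hk h),
    fun k hk h => le_of_tendsto' hy (a2 k hk h)⟩
  · exact le_of_tendsto' hy fun n => g.monotone.antitone_iterate_of_map_le h (Nat.zero_le n)
  · exact ge_of_tendsto' hy fun n => g.monotone.monotone_iterate_of_le_map h (Nat.zero_le n)

lemma dn_iter {g : ℝ → ℝ} (hp : Per g) (t : ℝ) (n : ℕ) : (dn g)^[n] t = ((g^[n] t : ℝ) : T1) :=
  (Function.Semiconj.iterate_right (f := ((↑) : ℝ → T1)) (fun t => (dn_coe hp t).symm) n t).symm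

lemma sk_iter (g : ℝ → ℝ) (α : ℝ) (z : T1 × T1) (n : ℕ) : ((sk g α)^[n] z).1 = (dn g)^[n] z.1 :=
  Function.Semiconj.iterate_right (f := Prod.fst) (ga := sk g α) (gb := dn g) (fun _ => rfl) n z

lemma const {g : ℝ ≃o ℝ} (hp : Per g) (h0 : g 0 = 0) {α : ℝ} (hα : Irrational α) {p : T1 → T1}
    (hc : Continuous p) (hs : ∀ θ, p (θ + α) = dn g (p θ)) : ∃ y, dn g y = y ∧ ∀ θ, p θ = y := by
  obtain ⟨y, h1, h2, -⟩ := conv g hp h0 (rp (p 0))
  refine ⟨y, by rw [dn_coe hp, h1], fun θ => ?_⟩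
  have h3 : ∀ n : ℕ, p (n • (α : T1)) = ((g^[n] (rp (p 0)) : ℝ) : T1) := by
    intro n
    rw [← dn_iter hp, coe_rp]
    induction n with
    | zero => simp
    | succ n ih => rw [succ_nsmul, hs, ih, Function.iterate_succ_apply']
  have h4 : Tendsto (fun n : ℕ => p (n • (α : T1))) atTop (𝓝 (y : T1)) := by
    simp only [h3]
    exact (continuous_coe.tendsto y).comp h2
  have h5 : DenseRange (· • (α : T1) : ℤ → T1) :=
    AddCircle.denseRange_zsmul_coe_iff.2 (by simpa using hα)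
  have h6 : MapClusterPt θ atTop (· • (α : T1) : ℕ → T1) :=
    ((mapClusterPt_atTop_nsmul_tfae θ (α : T1)).out 0 3).2 (h5 θ)
  have h7 := h6.continuousAt_comp hc.continuousAt
  exact eq_of_nhds_neBot (h7.clusterPt.mono h4)

lemma fib {g : ℝ → ℝ} {g' : ℝ ≃o ℝ} (hp : Per g') (h0 : g' 0 = 0) {α : ℝ} (hα : Irrational α)
    (H : T1 × T1 ≃ₜ T1 × T1) (hH : ∀ z, H (sk g α z) = sk g' α (H z)) {k : T1}
    (hk : dn g k = k) : ∃ y, dn g' y = y ∧ ∀ θ, (H (k, θ)).1 = y := by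
  refine const hp h0 hα (p := fun θ => (H (k, θ)).1) (by fun_prop) fun θ => ?_
  have := congrArg Prod.fst (hH (k, θ))
  simpa only [sk, hk] using this

section top

variable {I : Type} [LinearOrder I] [OrderTop I] {l w : I → ℝ} {g : ℝ ≃o ℝ}

lemma GapSys.top_eq (h : GapSys (· = ⊤) l w g) : l ⊤ + w ⊤ = 1 := by
  refine (h.r_le ⊤).eq_or_lt.resolve_right fun h1 => ?_
  obtain ⟨a, -, ha⟩ := h.dense _ 1 (by linarith [h.l_nonneg ⊤, h.w_pos ⊤]) h1 le_rfl
  rcases (le_top (a := a)).eq_or_lt with e | e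
  · rw [e] at ha
    exact lt_irrefl _ ha
  · linarith [h.sep a ⊤ e, h.w_pos ⊤]

lemma GapSys.fix_le (h : GapSys (· = ⊤) l w g) {k : ℝ} (hk : g k = k) (h1 : k < 1) : k ≤ l ⊤ :=
  not_lt.1 fun h2 => (h.pos ⊤ rfl k ⟨h2, by rw [h.top_eq]; exact h1⟩).ne' hk

lemma GapSys.le_self (h : GapSys (· = ⊤) l w g) {t : ℝ} (h0 : 0 ≤ t) (h1 : t ≤ l ⊤) : g t ≤ t := by
  by_cases h2 : ∃ a, t ∈ Ioo (l a) (l a + w a)
  · obtain ⟨a, ha⟩ := h2
    refine (h.neg a (fun e => ?_) t ha).le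
    rw [e] at ha
    exact absurd ha.1 (not_lt.2 h1)
  · exact (h.fix t h0 (by linarith [h.top_eq, h.w_pos ⊤]) fun a ha => h2 ⟨a, ha⟩).le

lemma GapSys.not_mem (h : GapSys (· = ⊤) l w g) {k : ℝ} (hk : g k = k) (a : I) :
    k ∉ Ioo (l a) (l a + w a) := fun ha => by
  by_cases e : a = ⊤
  · exact (h.pos a e k ha).ne' hk
  · exact (h.neg a e k ha).ne hk

lemma GapSys.fix_rp (h : GapSys (· = ⊤) l w g) {y : T1} (hy : dn g y = y) : g (rp y) = rp y := by
  refine coe_inj ?_ ?_ (rp_nonneg y) (rp_lt_one y) (by rw [coe_rp]; exact hy)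
  · rw [← h.fix_zero]
    exact g.monotone (rp_nonneg y)
  · rw [← h.fix_one]
    exact g.strictMono (rp_lt_one y)

lemma GapSys.attract [OrderBot I] (hbt : (⊥ : I) < ⊤) (h : GapSys (· = ⊤) l w g) {t : ℝ}
    (ht : t ∈ Ioo (l ⊤ - 1) (w ⊥)) : Tendsto (fun n => g^[n] t) atTop (𝓝 0) := by
  have hb : l ⊥ = 0 := by
    refine ((h.l_nonneg ⊥).eq_or_lt.resolve_right fun h1 => ?_).symm
    obtain ⟨a, ha, -⟩ := h.dense 0 _ le_rfl h1 (by linarith [h.r_le ⊥, h.w_pos ⊥])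
    rcases (bot_le (a := a)).eq_or_lt with e | e
    · rw [← e] at ha
      exact lt_irrefl _ ha
    · linarith [h.sep ⊥ a e, h.w_pos ⊥]
  obtain ⟨y, h1, h2, h3, h4, h5, h6⟩ := conv g h.per h.fix_zero t
  have : y = 0 := by
    rcases le_or_gt 0 t with e | e
    · have h7 := h3 (h.le_self e (by linarith [h.sep ⊥ ⊤ hbt, ht.2]))
      refine ((h5 0 h.fix_zero e).eq_or_lt.resolve_right fun h8 => ?_).symm
      exact h.not_mem h1 ⊥ ⟨by linarith, by linarith [ht.2]⟩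
    · have h7 := h.pos ⊤ rfl (1 + t) ⟨by linarith [ht.1], by linarith [h.top_eq]⟩
      have h8 := h.per 1
      push_cast at h8
      rw [h8] at h7
      have h9 := h4 (by linarith)
      refine (h6 0 h.fix_zero e.le).eq_or_lt.resolve_right fun h10 => ?_
      exact h.not_mem (k := 1 + y) (by rw [h8, h1]) ⊤
        ⟨by linarith [ht.1], by linarith [h.top_eq]⟩
  exact this ▸ h2

end top

theorem nonconj {B I' : Type} [LinearOrder B] [OrderBot B] [NoMaxOrder B] [LinearOrder I']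
    [OrderTop I'] [WellFoundedLT I'] {l w : WithTop B → ℝ} {g : ℝ ≃o ℝ} {l' w' : I' → ℝ}
    {g' : ℝ ≃o ℝ} (h : GapSys (· = ⊤) l w g) (h' : GapSys (· = ⊤) l' w' g') {α : ℝ}
    (hα : Irrational α) (H : T1 × T1 ≃ₜ T1 × T1) (hH : ∀ z, H (sk g α z) = sk g' α (H z)) :
    ∃ σ : B → I', StrictMono σ := by
  have hH' : ∀ z, H.symm (sk g' α z) = sk g α (H.symm z) := fun z => by
    rw [H.symm_apply_eq, hH, H.apply_symm_apply]
  have inj : ∀ k, dn g k = k → ∀ x θ θ', (H (x, θ)).1 = (H (k, θ')).1 → x = k := by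
    intro k hk x θ θ' e
    obtain ⟨y, hy, hy'⟩ := fib h'.per h'.fix_zero hα H hH hk
    obtain ⟨k', -, hk'⟩ := fib h.per h.fix_zero hα H.symm hH' hy
    have h1 := hk' (H (x, θ)).2
    have h2 := hk' (H (k, θ')).2
    rw [← hy' θ'] at h1 h2
    rw [← e, Prod.mk.eta, H.symm_apply_apply] at h1
    rw [Prod.mk.eta, H.symm_apply_apply] at h2
    exact h1.trans h2.symm
  have d0 : dn g 0 = 0 := by
    have := dn_coe h.per 0
    rwa [h.fix_zero] at this
  have base : (H (0, 0)).1 = 0 := by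
    obtain ⟨y, hy, hy'⟩ := fib h'.per h'.fix_zero hα H hH d0
    rw [hy' 0]
    by_contra hy0
    have k0 : 0 < rp y := (rp_nonneg y).lt_of_ne fun e => hy0 (by rw [← coe_rp y, ← e]; rfl)
    have k1 := h'.fix_le (h'.fix_rp hy) (rp_lt_one y)
    have hU : ((↑) : ℝ → T1) '' Ioo (l ⊤ - 1) (w ⊥) ∈ 𝓝 (0 : T1) :=
      (QuotientAddGroup.isOpenMap_coe _ isOpen_Ioo).mem_nhds
        ⟨0, ⟨by linarith [h.top_eq, h.w_pos ⊤], h.w_pos ⊥⟩, rfl⟩
    have c1 : Continuous fun t : ℝ => (H.symm ((t : T1), (H (0, 0)).2)).1 :=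
      continuous_fst.comp (H.symm.continuous.comp (continuous_coe.prodMk continuous_const))
    have c2 := c1.tendsto (rp y)
    rw [coe_rp, ← hy' 0, Prod.mk.eta, H.symm_apply_apply, hy' 0] at c2
    obtain ⟨t, ⟨u, hu, hu'⟩, ht0, ht1⟩ := (((c2.eventually hU).filter_mono nhdsWithin_le_nhds).and
      (Ioo_mem_nhdsLT k0)).exists
    set z := H.symm ((t : T1), (H (0, 0)).2) with hz
    have t1 : Tendsto (fun n => ((sk g α)^[n] z).1) atTop (𝓝 0) := by
      simp only [sk_iter, ← hu', dn_iter h.per]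
      exact (continuous_coe.tendsto 0).comp (h.attract bot_lt_top hu)
    have t2 : Tendsto (fun n => (H ((sk g α)^[n] z)).1) atTop (𝓝 y) := by
      intro V hV
      have h1 : ∀ᶠ x in 𝓝 (0 : T1), ∀ θ ∈ (univ : Set T1), (H (x, θ)).1 ∈ V := by
        apply isCompact_univ.eventually_forall_of_forall_eventually
        intro θ _
        have h2 := (continuous_fst.comp H.continuous).tendsto (0, θ)
        simp only [Function.comp_apply, hy'] at h2
        exact h2.eventually hV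
      exact (t1.eventually h1).mono fun n hn => hn _ (mem_univ _)
    have t3 : ∀ n, (H ((sk g α)^[n] z)).1 = ((g'^[n] t : ℝ) : T1) := fun n => by
      rw [Function.Semiconj.iterate_right (f := H) hH n z, hz, H.apply_symm_apply, sk_iter,
        dn_iter h'.per]
    simp only [t3] at t2
    obtain ⟨v, -, h2, h3, -, h5, -⟩ := conv g' h'.per h'.fix_zero t
    have h6 := h3 (h'.le_self ht0.le (by linarith))
    have h7 := tendsto_nhds_unique ((continuous_coe.tendsto v).comp h2) t2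
    have h8 := coe_inj (h5 0 h'.fix_zero ht0.le) (by linarith [rp_lt_one y]) (rp_nonneg y)
      (rp_lt_one y) (by rw [coe_rp]; exact h7)
    linarith
  let p : ℝ → ℝ := fun x => rp (H ((x : T1), 0)).1
  have pc : ContinuousOn p (Ioo 0 1) := by
    intro x hx
    refine ContinuousAt.continuousWithinAt (ContinuousAt.comp (g := rp)
      (f := fun x : ℝ => (H ((x : T1), 0)).1) (contAt_rp fun e => ?_) (continuous_fst.comp (H.continuous.comp
        (continuous_coe.prodMk continuous_const))).continuousAt)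
    have h1 := inj 0 d0 x 0 0 (e.trans base.symm)
    exact hx.1.ne' (coe_inj hx.1.le hx.2 le_rfl one_pos h1)
  let r : B → ℝ := fun b => l b + w b
  have r0 : ∀ b, 0 < r b := fun b => add_pos_of_nonneg_of_pos (h.l_nonneg b) (h.w_pos b)
  have r1 : ∀ b, r b < 1 := fun b => by
    linarith [h.sep b ⊤ (WithTop.coe_lt_top b), h.top_eq, h.w_pos ⊤]
  have rm : StrictMono r := fun a b hab =>
    (h.sep a b (WithTop.coe_lt_coe.2 hab)).trans_lt (lt_add_of_pos_right _ (h.w_pos b))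
  have rf : ∀ b, dn g (r b) = (r b : ℝ) := fun b => by rw [dn_coe h.per, h.fix_r]
  have qf : ∀ b, g' (p (r b)) = p (r b) := fun b => by
    obtain ⟨y, hy, hy'⟩ := fib h'.per h'.fix_zero hα H hH (rf b)
    exact h'.fix_rp (by rw [hy', hy])
  have pinj : ∀ b, ∀ x ∈ Ioo (0 : ℝ) 1, p x = p (r b) → x = r b := by
    intro b x hx e
    refine coe_inj hx.1.le hx.2 (r0 b).le (r1 b) (inj _ (rf b) _ 0 0 ?_)
    rw [← coe_rp (H ((x : T1), 0)).1, ← coe_rp (H ((r b : T1), 0)).1]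
    exact congrArg _ e
  have ne : ∀ a b, a < b → p (r a) ≠ p (r b) := fun a b hab e =>
    (rm hab).ne (pinj b _ ⟨r0 a, r1 a⟩ e)
  have sub : ∀ a b, Icc (r a) (r b) ⊆ Ioo 0 1 := fun a b x hx =>
    ⟨(r0 a).trans_le hx.1, hx.2.trans_lt (r1 b)⟩
  have btw : ∀ a b c, a < b → b < c → p (r b) < p (r a) → p (r c) < p (r b) := by
    intro a b c hab hbc h1
    by_contra h2
    rw [not_lt] at h2
    rcases le_total (p (r c)) (p (r a)) with e | e
    · obtain ⟨x, hx, hx'⟩ := intermediate_value_Icc' (rm hab).le (pc.mono (sub a b)) ⟨h2, e⟩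
      have := pinj c x (sub a b hx) hx'
      linarith [hx.2, rm hbc]
    · obtain ⟨x, hx, hx'⟩ := intermediate_value_Icc (rm hbc).le (pc.mono (sub b c)) ⟨h1.le, e⟩
      have := pinj a x (sub b c hx) hx'
      linarith [hx.1, rm hab]
  have ex : ∀ b, ∃ c, p (r b) ≤ l' c ∧ ∀ c', p (r b) ≤ l' c' → c ≤ c' := by
    intro b
    have hn : ({c | p (r b) ≤ l' c} : Set I').Nonempty := ⟨⊤, h'.fix_le (qf b) (rp_lt_one _)⟩
    exact ⟨wellFounded_lt.min _ hn, wellFounded_lt.min_mem _ hn,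
      fun c' hc' => not_lt.1 (wellFounded_lt.not_lt_min {c | p (r b) ≤ l' c} hc')⟩
  choose σ hσ1 hσ2 using ex
  have hσ : ∀ a b, p (r a) < p (r b) → σ a < σ b := by
    intro a b hab
    obtain ⟨c, hc1, hc2⟩ := h'.dense _ _ (rp_nonneg _) hab (rp_lt_one _).le
    have h1 : p (r a) ≤ l' c := not_lt.1 fun e => h'.not_mem (qf a) c ⟨e, hc2⟩
    refine (hσ2 a c h1).trans_lt (not_le.1 fun e => ?_)
    rcases e.eq_or_lt with e | e
    · linarith [hσ1 b, congrArg l' e]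
    · linarith [hσ1 b, h'.sep _ _ e, h'.w_pos (σ b)]
  refine ⟨σ, fun a b hab => hσ a b ?_⟩
  by_contra h1
  have hn : ({c | ∃ a b, a < b ∧ p (r b) < p (r a) ∧ c = σ b} : Set I').Nonempty :=
    ⟨_, a, b, hab, (not_lt.1 h1).lt_of_ne (ne a b hab).symm, rfl⟩
  obtain ⟨_, ⟨a, b, hab, h2, rfl⟩, h3⟩ := wellFounded_lt.has_min _ hn
  obtain ⟨c, hc⟩ := exists_gt b
  have h4 := btw a b c hab hc h2
  exact h3 _ ⟨b, c, hc, h4, rfl⟩ (hσ c b h4)

end Pool.Agent.H488Z.KS
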